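import Mathlib

/-!
Trilinear forms in two pairs of variables and one `m`-tuple of variables: divisors of type
`(1,1,1)` in the product of two projective lines and a projective space.  Definitions.
-/

namespace Pool.Agent.H548.WM

/-- The value at `(p, q, r)` of the trilinear form with integer coefficients `a`
(`p`, `q`, `r` are vectors of homogeneous coordinates). -/
def fv {R : Type*} [CommRing R] {m : ℕ} (a : Fin 2 → Fin 2 → Fin m → ℤ) (p q : Fin 2 → R)
    (r : Fin m → R) : R :=
  ∑ i, ∑ j, ∑ k, (a i j k : R) * p i * q j * r k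

/-- The divisor is smooth: at no point of it (over the complex numbers) do all partial
derivatives vanish. -/
def Smooth {m : ℕ} (a : Fin 2 → Fin 2 → Fin m → ℤ) : Prop :=
  ∀ (p q : Fin 2 → ℂ) (r : Fin m → ℂ), p ≠ 0 → q ≠ 0 → r ≠ 0 → fv a p q r = 0 →
    (∃ v, fv a v q r ≠ 0) ∨ (∃ v, fv a p v r ≠ 0) ∨ (∃ v, fv a p q v ≠ 0)

/-- The `2 × 2` matrix of the bilinear form in the first two arguments, for given `r`. -/
def mt {R : Type*} [CommRing R] {m : ℕ} (a : Fin 2 → Fin 2 → Fin m → ℤ) (r : Fin m → R)
    (i j : Fin 2) : R := ∑ k, (a i j k : R) * r k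

/-- Its determinant. -/
def dt {R : Type*} [CommRing R] {m : ℕ} (a : Fin 2 → Fin 2 → Fin m → ℤ) (r : Fin m → R) : R :=
  mt a r 0 0 * mt a r 1 1 - mt a r 0 1 * mt a r 1 0

/-- The coefficient vector of the linear form in the third argument. -/
def cv {R : Type*} [CommRing R] {m : ℕ} (a : Fin 2 → Fin 2 → Fin m → ℤ) (p q : Fin 2 → R)
    (k : Fin m) : R := ∑ i, ∑ j, (a i j k : R) * p i * q j

/-- The height: the maximum of the absolute values of the coordinates. -/
def ht {m : ℕ} (v : Fin m → ℤ) : ℕ := Finset.univ.sup fun i => (v i).natAbs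

/-- Normalised primitive integer vectors (one for each rational point of the projective space):
the greatest common divisor of the coordinates is `1` and the first nonzero coordinate is
positive. -/
def Rep {m : ℕ} (v : Fin m → ℤ) : Prop :=
  Finset.univ.gcd v = 1 ∧ ∃ i, 0 < v i ∧ ∀ j < i, v j = 0

/-- No zeros of `cv`. -/
def Nz {m : ℕ} (a : Fin 2 → Fin 2 → Fin m → ℤ) : Prop :=
  ∀ p q : Fin 2 → ℂ, p ≠ 0 → q ≠ 0 → ∃ k, cv a p q k ≠ 0

end Pool.Agent.H548.WM
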