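import Mathlib
import Pool.Agent.H548.WM.Stm

/-! Integer vectors in a box on a hyperplane. -/

namespace Pool.Agent.H548.WM

open Finset

/-- Vectors in the box of size `X`. -/
noncomputable def bx (m X : ℕ) : Finset (Fin m → ℤ) :=
  Fintype.piFinset fun _ => Finset.Icc (-(X : ℤ)) X

theorem le_ht {m : ℕ} (v : Fin m → ℤ) (i : Fin m) : (v i).natAbs ≤ ht v :=
  Finset.le_sup (f := fun i => (v i).natAbs) (mem_univ i)

theorem le_ht' {m : ℕ} (v : Fin m → ℤ) (i : Fin m) : |v i| ≤ (ht v : ℤ) := by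
  rw [Int.abs_eq_natAbs]
  exact_mod_cast le_ht v i

theorem ht_le {m : ℕ} {v : Fin m → ℤ} {X : ℕ} (h : ∀ i, |v i| ≤ (X : ℤ)) : ht v ≤ X :=
  Finset.sup_le fun i _ => by
    have := h i
    rw [Int.abs_eq_natAbs] at this
    exact_mod_cast this

theorem exists_ht {m : ℕ} (hm : 0 < m) (v : Fin m → ℤ) : ∃ i, |v i| = (ht v : ℤ) := by
  have : Nonempty (Fin m) := ⟨⟨0, hm⟩⟩
  obtain ⟨i, -, hi⟩ := Finset.exists_mem_eq_sup (univ : Finset (Fin m)) univ_nonempty
    (fun i => (v i).natAbs)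
  refine ⟨i, ?_⟩
  rw [Int.abs_eq_natAbs]
  unfold ht
  rw [hi]

theorem mem_bx {m X : ℕ} {v : Fin m → ℤ} : v ∈ bx m X ↔ ht v ≤ X := by
  unfold bx
  rw [Fintype.mem_piFinset]
  simp only [mem_Icc, ← abs_le]
  constructor
  · exact fun h => ht_le h
  · intro h i
    exact (le_ht' v i).trans (by exact_mod_cast h)

theorem card_bx {m X : ℕ} : (bx m X).card = (2 * X + 1) ^ m := by
  unfold bx
  rw [Fintype.card_piFinset]
  simp only [Int.card_Icc, prod_const, card_univ, Fintype.card_fin]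
  congr 1
  omega

open Classical in
/-- The number of integer vectors on a hyperplane in a box. -/
theorem hyp {m : ℕ} (c u : Fin m → ℤ) (g N' : ℕ) (k0 : Fin m) (Z K : ℕ) (hg : 1 ≤ g)
    (hN' : 1 ≤ N') (hu : ∑ k, u k * c k = g) (hN : (c k0).natAbs = g * N')
    (hK : g * N' ≤ K * Z) (hZ : 1 ≤ Z) :
    ((bx m Z).filter fun r => ∑ k, c k * r k = 0).card * (Z * N') ≤ ((K + 4) * Z) ^ m := by
  set N : ℕ := g * N' with hNdef
  have hN0 : 0 < N := Nat.mul_pos hg hN'
  have hNz : (N : ℤ) ≠ 0 := by exact_mod_cast hN0.ne'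
  have hcard : ((bx m Z).filter fun r => ∑ k, c k * r k = 0).card * (Z * N') =
      (((bx m Z).filter fun r => ∑ k, c k * r k = 0) ×ˢ (range Z ×ˢ range N')).card := by
    rw [card_product, card_product, card_range, card_range]
  set T : Finset (Fin m → ℤ) :=
    Fintype.piFinset fun _ => Finset.Icc (-(Z : ℤ)) ((K + 2) * Z : ℕ) with hT
  have hTc : T.card ≤ ((K + 4) * Z) ^ m := by
    rw [hT, Fintype.card_piFinset]
    simp only [Int.card_Icc, prod_const, card_univ, Fintype.card_fin]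
    apply Nat.pow_le_pow_left
    push_cast
    have : (((K : ℤ) + 2) * Z + 1 - -(Z : ℤ)) ≤ ((K : ℤ) + 4) * Z := by
      have : (1 : ℤ) ≤ Z := by exact_mod_cast hZ
      nlinarith
    have h2 := Int.toNat_le_toNat this
    refine h2.trans (le_of_eq ?_)
    have : ((K : ℤ) + 4) * Z = (((K + 4) * Z : ℕ) : ℤ) := by push_cast; ring
    rw [this, Int.toNat_natCast]
  rw [hcard]
  refine le_trans ?_ hTc
  apply Finset.card_le_card_of_injOn
    (fun x : (Fin m → ℤ) × (ℕ × ℕ) => fun k =>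
      x.1 k + (if k = k0 then (x.2.1 : ℤ) else 0) + (x.2.2 * u k) % (N : ℤ))
  · rintro ⟨r, t, s⟩ hx
    simp only [coe_product, Set.mem_prod, mem_coe, mem_filter, mem_range] at hx
    obtain ⟨⟨hr, -⟩, ht0, hs⟩ := hx
    rw [mem_coe, hT, Fintype.mem_piFinset]
    intro k
    rw [mem_Icc]
    rw [mem_bx] at hr
    have h1 := (abs_le.1 (le_ht' r k))
    have h2 : (ht r : ℤ) ≤ Z := by exact_mod_cast hr
    have h3 := Int.emod_nonneg ((s : ℤ) * u k) hNz
    have h4 := Int.emod_lt_of_pos ((s : ℤ) * u k) (by exact_mod_cast hN0 : (0 : ℤ) < N)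
    have h5 : (N : ℤ) ≤ K * Z := by exact_mod_cast hK
    have h6 : (t : ℤ) < Z := by exact_mod_cast ht0
    have h7 : (0 : ℤ) ≤ t := by positivity
    simp only
    push_cast
    have h8 : ((K : ℤ) + 2) * Z = K * Z + 2 * Z := by ring
    split_ifs <;> constructor <;> linarith [h1.1, h1.2]
  · rintro ⟨r, t, s⟩ hx ⟨r', t', s'⟩ hx' heq
    simp only [coe_product, Set.mem_prod, mem_coe, mem_filter, mem_range] at hx hx'
    obtain ⟨⟨-, hr⟩, ht, hs⟩ := hx
    obtain ⟨⟨-, hr'⟩, ht', hs'⟩ := hx'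
    simp only at heq hr hr' ht ht' hs hs'
    have hval : ∀ (r : Fin m → ℤ) (t s : ℕ), ∑ k, c k * r k = 0 →
        ∑ k, c k * (r k + (if k = k0 then (t : ℤ) else 0) + (s * u k) % (N : ℤ)) =
          c k0 * t + ∑ k, c k * ((s * u k) % (N : ℤ)) := by
      intro r t s hr
      simp only [mul_add, Finset.sum_add_distrib]
      rw [hr]
      simp
    have hmod : ∀ s : ℕ, (N : ℤ) ∣ ∑ k, c k * ((s * u k) % (N : ℤ)) - s * g := by
      intro s
      have : ∑ k, c k * ((s * u k) % (N : ℤ)) - s * g =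
          ∑ k, c k * ((s * u k) % (N : ℤ) - s * u k) := by
        rw [← hu, Finset.mul_sum, ← Finset.sum_sub_distrib]
        refine Finset.sum_congr rfl fun k _ => ?_
        ring
      rw [this]
      refine Finset.dvd_sum fun k _ => Dvd.dvd.mul_left ?_ _
      rw [Int.emod_def]
      exact ⟨-((s : ℤ) * u k / N), by ring⟩
    have hNc : (N : ℤ) ∣ c k0 := by
      rw [← Int.dvd_natAbs, hN]
    have e1 := hval r t s hr
    have e2 := hval r' t' s' hr'
    have e3 : ∑ k, c k * (r k + (if k = k0 then (t : ℤ) else 0) + (s * u k) % (N : ℤ)) =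
        ∑ k, c k * (r' k + (if k = k0 then (t' : ℤ) else 0) + (s' * u k) % (N : ℤ)) :=
      Finset.sum_congr rfl fun k _ => by rw [congrFun heq k]
    rw [e1, e2] at e3
    have hd : (N : ℤ) ∣ (s : ℤ) * g - s' * g := by
      obtain ⟨x, hx⟩ := hmod s
      obtain ⟨y, hy⟩ := hmod s'
      obtain ⟨z, hz⟩ := hNc
      refine ⟨y - x + z * t' - z * t, ?_⟩
      rw [hz] at e3
      linear_combination hx * (-1) + hy + e3
    have hss : s = s' := by
      have h1 : (g : ℤ) * N' ∣ g * ((s : ℤ) - s') := by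
        have : (g : ℤ) * ((s : ℤ) - s') = s * g - s' * g := by ring
        rw [this]
        rw [hNdef] at hd
        exact_mod_cast hd
      have h2 : (N' : ℤ) ∣ (s : ℤ) - s' :=
        Int.dvd_of_mul_dvd_mul_left (by exact_mod_cast (show g ≠ 0 by omega)) h1
      have h3 : |(s : ℤ) - s'| < N' := by
        rw [abs_lt]
        constructor <;> omega
      have h4 := Int.eq_zero_of_abs_lt_dvd h2 h3
      omega
    subst hss
    have hck : c k0 ≠ 0 := by
      intro h0
      rw [h0] at hN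
      simp at hN
      omega
    have htt : t = t' := by
      have h1 : c k0 * (t : ℤ) = c k0 * t' := by linarith
      have h2 := mul_left_cancel₀ hck h1
      exact_mod_cast h2
    subst htt
    have hrr : r = r' := by
      funext k
      have := congrFun heq k
      linarith
    rw [hrr]

end Pool.Agent.H548.WM
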