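import Mathlib
import Pool.Agent.H548.WM.Stm

/-! The coefficient vector: common divisors are bounded, its size is at least a constant times
the product of the sizes of the arguments. -/

namespace Pool.Agent.H548.WM

open MvPolynomial Finset

section gcd

variable {m : ℕ}

/-- The coordinates of the coefficient vector as polynomials. -/
noncomputable def cpol (a : Fin 2 → Fin 2 → Fin m → ℤ) (k : Fin m) :
    MvPolynomial (Fin 2 ⊕ Fin 2) ℚ :=
  cv a (fun i => X (Sum.inl i)) (fun j => X (Sum.inr j)) k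

theorem aeval_cpol {A : Type*} [CommRing A] [Algebra ℚ A] (a : Fin 2 → Fin 2 → Fin m → ℤ)
    (k : Fin m) (x : Fin 2 ⊕ Fin 2 → A) :
    aeval x (cpol a k) = cv a (fun i => x (Sum.inl i)) (fun j => x (Sum.inr j)) k := by
  simp [cpol, cv, map_mul, map_add]

theorem denom (f : MvPolynomial (Fin 2 ⊕ Fin 2) ℚ) : ∃ D : ℕ, 1 ≤ D ∧
    ∀ p : Fin 2 ⊕ Fin 2 → ℤ, ∃ n : ℤ, (D : ℚ) * aeval (fun i => (p i : ℚ)) f = n := by
  induction f using MvPolynomial.induction_on' with
  | monomial u a =>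
    refine ⟨a.den, a.pos, fun p => ⟨a.num * u.prod fun i k => p i ^ k, ?_⟩⟩
    rw [aeval_monomial, ← mul_assoc]
    push_cast
    congr 1
    rw [mul_comm]
    exact Rat.mul_den_eq_num a
  | add f₁ f₂ h1 h2 =>
    obtain ⟨D1, hD1, h1⟩ := h1
    obtain ⟨D2, hD2, h2⟩ := h2
    refine ⟨D1 * D2, Nat.mul_pos hD1 hD2, fun p => ?_⟩
    obtain ⟨n1, e1⟩ := h1 p
    obtain ⟨n2, e2⟩ := h2 p
    refine ⟨D2 * n1 + D1 * n2, ?_⟩
    rw [map_add]
    push_cast
    rw [← e1, ← e2]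
    ring

theorem power {a : Fin 2 → Fin 2 → Fin m → ℤ} (ha : Nz a) (i j : Fin 2) :
    ∃ (D N : ℕ), 1 ≤ D ∧ ∀ p q : Fin 2 → ℤ, ∀ g : ℤ,
      (∀ k, g ∣ cv a p q k) → g ∣ (D : ℤ) * (p i * q j) ^ N := by
  set I : Ideal (MvPolynomial (Fin 2 ⊕ Fin 2) ℚ) := Ideal.span (Set.range (cpol a)) with hI
  have h1 : (X (Sum.inl i) * X (Sum.inr j) : MvPolynomial (Fin 2 ⊕ Fin 2) ℚ) ∈ I.radical := by
    rw [← vanishingIdeal_zeroLocus_eq_radical (K := ℂ) I, mem_vanishingIdeal_iff]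
    intro x hx
    rw [hI, zeroLocus_span] at hx
    rw [map_mul, aeval_X, aeval_X]
    by_cases hx0 : (fun i => x (Sum.inl i)) = 0
    · rw [show x (Sum.inl i) = 0 from congrFun hx0 i, zero_mul]
    · by_cases hx1 : (fun i => x (Sum.inr i)) = 0
      · rw [show x (Sum.inr j) = 0 from congrFun hx1 j, mul_zero]
      · exfalso
        obtain ⟨k, h⟩ := ha _ _ hx0 hx1
        refine h ?_
        have h2 := hx (cpol a k) ⟨_, rfl⟩
        rw [aeval_cpol] at h2
        exact h2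
  obtain ⟨N, hN⟩ := Ideal.mem_radical_iff.1 h1
  rw [hI, Ideal.mem_span_range_iff_exists_fun] at hN
  obtain ⟨c, hc⟩ := hN
  choose D hD hDn using fun t => denom (c t)
  refine ⟨∏ t, D t, N, Nat.one_le_iff_ne_zero.2 (Finset.prod_pos fun t _ => hD t).ne',
    fun p q g hg => ?_⟩
  choose n hn using fun t => hDn t (Sum.elim p q)
  have h3 : ∀ t, ∃ e : ℕ, ∏ t, D t = D t * e := fun t =>
    Finset.dvd_prod_of_mem D (Finset.mem_univ t)
  choose e he using h3
  have h4 : ((∏ t, D t : ℕ) : ℤ) * (p i * q j) ^ N = ∑ t, (e t * n t) * cv a p q t := by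
    have h5 := congrArg (aeval (fun i => ((Sum.elim p q i : ℤ) : ℚ))) hc
    rw [map_sum, map_pow, map_mul, aeval_X, aeval_X] at h5
    simp only [Sum.elim_inl, Sum.elim_inr] at h5
    have h6 : (((∏ t, D t : ℕ) : ℤ) : ℚ) * ((p i : ℚ) * (q j : ℚ)) ^ N =
        ∑ t, ((e t : ℚ) * n t) * ((cv a p q t : ℤ) : ℚ) := by
      rw [← h5, Finset.mul_sum]
      refine Finset.sum_congr rfl fun t _ => ?_
      rw [map_mul, aeval_cpol, ← hn t, he t]
      have h7 : ((cv a p q t : ℤ) : ℚ) =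
          cv a (fun i => ((Sum.elim p q (Sum.inl i) : ℤ) : ℚ))
            (fun j => ((Sum.elim p q (Sum.inr j) : ℤ) : ℚ)) t := by
        simp [cv]
      rw [h7]
      push_cast
      ring
    have h8 : ((((∏ t, D t : ℕ) : ℤ) * (p i * q j) ^ N : ℤ) : ℚ) =
      ((∑ t, (e t * n t) * cv a p q t : ℤ) : ℚ) := by
      rw [Int.cast_mul, Int.cast_pow, Int.cast_mul, h6, Int.cast_sum]
      refine Finset.sum_congr rfl fun t _ => ?_
      rw [Int.cast_mul, Int.cast_mul, Int.cast_natCast]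
    exact_mod_cast h8
  rw [h4]
  exact Finset.dvd_sum fun t _ => Dvd.dvd.mul_left (hg _) _

/-- Common divisors of the coordinates of the coefficient vector are bounded. -/
theorem content {a : Fin 2 → Fin 2 → Fin m → ℤ} (ha : Nz a) :
    ∃ K : ℕ, 1 ≤ K ∧ ∀ p q : Fin 2 → ℤ, IsCoprime (p 0) (p 1) → IsCoprime (q 0) (q 1) →
      ∀ g : ℤ, (∀ k, g ∣ cv a p q k) → g ∣ (K : ℤ) := by
  choose D N hD h using power ha
  refine ⟨∏ i, ∏ j, D i j, Nat.one_le_iff_ne_zero.2
    (Finset.prod_pos fun i _ => Finset.prod_pos fun j _ => hD i j).ne', ?_⟩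
  intro p q hp hq g hg
  obtain ⟨u, v, huv⟩ := hp
  obtain ⟨u', v', huv'⟩ := hq
  set J : Ideal ℤ := Submodule.comap (LinearMap.mulLeft ℤ (((∏ i, ∏ j, D i j : ℕ) : ℤ)))
    (Ideal.span {g}) with hJ
  have hmem : ∀ x : ℤ, x ∈ J ↔ g ∣ ((∏ i, ∏ j, D i j : ℕ) : ℤ) * x := by
    intro x
    rw [hJ, Submodule.mem_comap, LinearMap.mulLeft_apply, Ideal.mem_span_singleton]
  have h1 : ∀ i j, p i * q j ∈ J.radical := by
    intro i j
    refine Ideal.mem_radical_iff.2 ⟨N i j, ?_⟩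
    rw [hmem]
    obtain ⟨e, he⟩ : D i j ∣ ∏ i, ∏ j, D i j :=
      (Finset.dvd_prod_of_mem (D i) (Finset.mem_univ j)).trans
        (Finset.dvd_prod_of_mem (fun i => ∏ j, D i j) (Finset.mem_univ i))
    rw [he]
    have h2 := h i j p q g hg
    have h3 : (((D i j * e : ℕ) : ℤ) * (p i * q j) ^ N i j) =
        e * ((D i j : ℤ) * (p i * q j) ^ N i j) := by
      push_cast
      ring
    rw [h3]
    exact Dvd.dvd.mul_left h2 _
  have h2 : (1 : ℤ) ∈ J.radical := by
    have : (1 : ℤ) = (u * u') * (p 0 * q 0) + (u * v') * (p 0 * q 1) + (v * u') * (p 1 * q 0) +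
        (v * v') * (p 1 * q 1) := by
      linear_combination -(u' * q 0 + v' * q 1) * huv - huv'
    rw [this]
    exact Ideal.add_mem _ (Ideal.add_mem _ (Ideal.add_mem _ (Ideal.mul_mem_left _ _ (h1 0 0))
      (Ideal.mul_mem_left _ _ (h1 0 1))) (Ideal.mul_mem_left _ _ (h1 1 0)))
      (Ideal.mul_mem_left _ _ (h1 1 1))
  obtain ⟨n, hn⟩ := Ideal.mem_radical_iff.1 h2
  rw [one_pow, hmem, mul_one] at hn
  exact hn

end gcd

section size

variable {m : ℕ}

theorem cv_smul (a : Fin 2 → Fin 2 → Fin m → ℤ) (p q : Fin 2 → ℝ) (s t : ℝ) (k : Fin m) :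
    cv a (s • p) (t • q) k = s * t * cv a p q k := by
  unfold cv
  simp only [Fin.sum_univ_two, Pi.smul_apply, smul_eq_mul]
  ring

/-- The size of the coefficient vector is at least a constant times the product of the sizes of
the arguments. -/
theorem size_real {a : Fin 2 → Fin 2 → Fin m → ℤ} (ha : Nz a) :
    ∃ κ : ℝ, 0 < κ ∧ ∀ p q : Fin 2 → ℝ, κ * (‖p‖ * ‖q‖) ≤ ‖cv a p q‖ := by
  set S : Set ((Fin 2 → ℝ) × (Fin 2 → ℝ)) :=
    Metric.sphere (0 : Fin 2 → ℝ) 1 ×ˢ Metric.sphere (0 : Fin 2 → ℝ) 1 with hS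
  have hScomp : IsCompact S := (isCompact_sphere _ _).prod (isCompact_sphere _ _)
  have hne : S.Nonempty := by
    have h : ‖(fun _ => 1 : Fin 2 → ℝ)‖ = 1 := by simp
    exact ⟨(fun _ => 1, fun _ => 1), by simp [hS, h]⟩
  have hcont : Continuous fun x : (Fin 2 → ℝ) × (Fin 2 → ℝ) => ‖cv a x.1 x.2‖ := by
    refine continuous_norm.comp (continuous_pi fun k => ?_)
    unfold cv
    fun_prop
  obtain ⟨x₀, hx₀, hmin⟩ := hScomp.exists_isMinOn hne hcont.continuousOn
  have hnz : ∀ p q : Fin 2 → ℝ, p ≠ 0 → q ≠ 0 → cv a p q ≠ 0 := by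
    intro p q hp hq h
    have hp' : (fun i => (p i : ℂ)) ≠ 0 := by
      intro h'
      apply hp
      funext i
      have := congrFun h' i
      simpa using this
    have hq' : (fun i => (q i : ℂ)) ≠ 0 := by
      intro h'
      apply hq
      funext i
      have := congrFun h' i
      simpa using this
    obtain ⟨k, hk⟩ := ha _ _ hp' hq'
    apply hk
    have h1 := congrFun h k
    have h2 : cv a (fun i => (p i : ℂ)) (fun i => (q i : ℂ)) k = ((cv a p q k : ℝ) : ℂ) := by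
      simp [cv]
    rw [h2, h1]
    simp
  refine ⟨‖cv a x₀.1 x₀.2‖, ?_, ?_⟩
  · rw [norm_pos_iff]
    simp only [hS, Set.mem_prod, mem_sphere_iff_norm, sub_zero] at hx₀
    apply hnz
    · intro h
      rw [h, norm_zero] at hx₀
      exact zero_ne_one hx₀.1
    · intro h
      rw [h, norm_zero] at hx₀
      exact zero_ne_one hx₀.2
  · intro p q
    by_cases hp : p = 0
    · rw [hp, norm_zero, zero_mul, mul_zero]; exact norm_nonneg _
    by_cases hq : q = 0
    · rw [hq, norm_zero, mul_zero, mul_zero]; exact norm_nonneg _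
    have hp1 : 0 < ‖p‖ := norm_pos_iff.2 hp
    have hq1 : 0 < ‖q‖ := norm_pos_iff.2 hq
    have hmem : (‖p‖⁻¹ • p, ‖q‖⁻¹ • q) ∈ S := by
      simp [hS, norm_smul, hp1.ne', hq1.ne']
    have h1 := hmin hmem
    simp only [Set.mem_ofPred_eq] at h1
    have h2 : cv a (‖p‖⁻¹ • p) (‖q‖⁻¹ • q) = (‖p‖⁻¹ * ‖q‖⁻¹) • cv a p q := by
      funext k
      rw [cv_smul, Pi.smul_apply, smul_eq_mul]
    rw [h2, norm_smul, norm_mul, norm_inv, norm_inv, norm_norm, norm_norm] at h1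
    have h3 := mul_le_mul_of_nonneg_right h1 (mul_pos hp1 hq1).le
    refine h3.trans (le_of_eq ?_)
    field_simp

end size

end Pool.Agent.H548.WM
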