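import Mathlib
import Pool.Agent.H548.WM.Stm

/-! The geometric part. -/

namespace Pool.Agent.H548.WM

open Finset

theorem fv_cv {R : Type*} [CommRing R] {m : ℕ} (a : Fin 2 → Fin 2 → Fin m → ℤ) (p q : Fin 2 → R)
    (r : Fin m → R) : fv a p q r = ∑ k, cv a p q k * r k := by
  unfold fv cv
  simp only [Fin.sum_univ_two, ← Finset.sum_add_distrib]
  refine Finset.sum_congr rfl fun k _ => ?_
  ring

theorem fv_mt {R : Type*} [CommRing R] {m : ℕ} (a : Fin 2 → Fin 2 → Fin m → ℤ) (p q : Fin 2 → R)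
    (r : Fin m → R) : fv a p q r = ∑ i, ∑ j, mt a r i j * p i * q j := by
  unfold fv mt
  refine Finset.sum_congr rfl fun i _ => ?_
  refine Finset.sum_congr rfl fun j _ => ?_
  rw [Finset.sum_mul, Finset.sum_mul]
  refine Finset.sum_congr rfl fun k _ => ?_
  ring

/-- A nonzero vector in the plane and another one are a basis. -/
theorem exists_basis {p : Fin 2 → ℂ} (hp : p ≠ 0) :
    ∃ p' : Fin 2 → ℂ, p 0 * p' 1 - p 1 * p' 0 = 1 := by
  by_cases h : p 0 = 0
  · have h1 : p 1 ≠ 0 := by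
      intro h1
      apply hp
      funext i
      fin_cases i
      · exact h
      · exact h1
    refine ⟨![-(p 1)⁻¹, 0], ?_⟩
    simp [h1]
  · refine ⟨![0, (p 0)⁻¹], ?_⟩
    simp [h]

/-- Smoothness implies that the coefficient vector has no zeros. -/
theorem nz_of_smooth {m : ℕ} (hm : 3 ≤ m) {a : Fin 2 → Fin 2 → Fin m → ℤ} (ha : Smooth a) :
    Nz a := by
  intro p q hp hq
  by_contra hc
  push Not at hc
  obtain ⟨p', hp'⟩ := exists_basis hp
  obtain ⟨q', hq'⟩ := exists_basis hq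
  -- two linear conditions
  let φ : (Fin m → ℂ) →ₗ[ℂ] (Fin 2 → ℂ) :=
    LinearMap.pi fun s => if s = 0 then
      (∑ k, (cv a p' q k) • (LinearMap.proj k : (Fin m → ℂ) →ₗ[ℂ] ℂ)) else
      (∑ k, (cv a p q' k) • (LinearMap.proj k : (Fin m → ℂ) →ₗ[ℂ] ℂ))
  have hdim : Module.finrank ℂ (Fin 2 → ℂ) < Module.finrank ℂ (Fin m → ℂ) := by
    simp only [Module.finrank_fin_fun]
    omega
  have hker := LinearMap.ker_ne_bot_of_finrank_lt (f := φ) hdim
  obtain ⟨r, hr, hr0⟩ := Submodule.exists_mem_ne_zero_of_ne_bot hker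
  rw [LinearMap.mem_ker] at hr
  have h1 : ∑ k, cv a p' q k * r k = 0 := by
    have := congrFun hr 0
    simpa [φ, LinearMap.sum_apply] using this
  have h2 : ∑ k, cv a p q' k * r k = 0 := by
    have := congrFun hr 1
    simpa [φ, LinearMap.sum_apply] using this
  have h0 : ∑ k, cv a p q k * r k = 0 :=
    Finset.sum_eq_zero fun k _ => by rw [hc k, zero_mul]
  rw [← fv_cv] at h1 h2 h0
  -- bilinearity
  have hA : ∀ v, fv a v q r = 0 := by
    intro v
    have : fv a v q r = (v 0 * p' 1 - v 1 * p' 0) * fv a p q r +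
        (p 0 * v 1 - p 1 * v 0) * fv a p' q r := by
      rw [fv_mt, fv_mt, fv_mt]
      simp only [Fin.sum_univ_two]
      linear_combination (-(mt a r 0 0 * v 0 * q 0 + mt a r 0 1 * v 0 * q 1 +
        (mt a r 1 0 * v 1 * q 0 + mt a r 1 1 * v 1 * q 1))) * hp'
    rw [this, h0, h1, mul_zero, mul_zero, add_zero]
  have hB : ∀ v, fv a p v r = 0 := by
    intro v
    have : fv a p v r = (v 0 * q' 1 - v 1 * q' 0) * fv a p q r +
        (q 0 * v 1 - q 1 * v 0) * fv a p q' r := by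
      rw [fv_mt, fv_mt, fv_mt]
      simp only [Fin.sum_univ_two]
      linear_combination (-(mt a r 0 0 * p 0 * v 0 + mt a r 0 1 * p 0 * v 1 +
        (mt a r 1 0 * p 1 * v 0 + mt a r 1 1 * p 1 * v 1))) * hq'
    rw [this, h0, h2, mul_zero, mul_zero, add_zero]
  have hC : ∀ v, fv a p q v = 0 := by
    intro v
    rw [fv_cv]
    exact Finset.sum_eq_zero fun k _ => by rw [hc k, zero_mul]
  rcases ha p q r hp hq hr0 h0 with ⟨v, hv⟩ | ⟨v, hv⟩ | ⟨v, hv⟩
  · exact hv (hA v)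
  · exact hv (hB v)
  · exact hv (hC v)

theorem mt_single {R : Type*} [CommRing R] {m : ℕ} (a : Fin 2 → Fin 2 → Fin m → ℤ) (k : Fin m)
    (i j : Fin 2) : mt a (Pi.single k (1 : R)) i j = (a i j k : R) := by
  unfold mt
  rw [Finset.sum_eq_single k]
  · simp
  · intro l _ hl
    simp [Pi.single_eq_of_ne hl]
  · simp

theorem mt_add {R : Type*} [CommRing R] {m : ℕ} (a : Fin 2 → Fin 2 → Fin m → ℤ)
    (r s : Fin m → R) (i j : Fin 2) : mt a (r + s) i j = mt a r i j + mt a s i j := by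
  unfold mt
  rw [← Finset.sum_add_distrib]
  refine Finset.sum_congr rfl fun k _ => ?_
  rw [Pi.add_apply]
  ring

/-- The determinant does not vanish identically. -/
theorem exists_dt {m : ℕ} {a : Fin 2 → Fin 2 → Fin m → ℤ} (ha : Nz a) :
    ∃ r : Fin m → ℂ, dt a r ≠ 0 := by
  by_contra hc
  push Not at hc
  have e0 : (![1, 0] : Fin 2 → ℂ) ≠ 0 := by
    intro h
    have := congrFun h 0
    simp at this
  obtain ⟨k, hk⟩ := ha ![1, 0] ![1, 0] e0 e0
  have hk' : (a 0 0 k : ℂ) ≠ 0 := by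
    intro h
    apply hk
    unfold cv
    simp [Fin.sum_univ_two, h]
  have hp0 : (![(a 1 0 k : ℂ), -(a 0 0 k : ℂ)] : Fin 2 → ℂ) ≠ 0 := by
    intro h
    have := congrFun h 1
    simp at this
    exact hk' (by exact_mod_cast this)
  have hq0 : (![(a 0 1 k : ℂ), -(a 0 0 k : ℂ)] : Fin 2 → ℂ) ≠ 0 := by
    intro h
    have := congrFun h 1
    simp at this
    exact hk' (by exact_mod_cast this)
  obtain ⟨l, hl⟩ := ha _ _ hp0 hq0
  apply hl
  have h1 := hc (Pi.single k 1)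
  have h2 := hc (Pi.single l 1)
  have h3 := hc (Pi.single k 1 + Pi.single l 1)
  unfold dt at h1 h2 h3
  simp only [mt_add, mt_single] at h1 h2 h3
  unfold cv
  simp only [Fin.sum_univ_two, Matrix.cons_val_zero, Matrix.cons_val_one, Matrix.cons_val_fin_one]
  linear_combination (a 0 0 k : ℂ) * h3 - (a 0 0 k : ℂ) * h2 - (a 0 0 k : ℂ) * h1 -
    (a 0 0 l : ℂ) * h1

/-- The open set is not empty. -/
theorem exists_point {m : ℕ} {a : Fin 2 → Fin 2 → Fin m → ℤ} (ha : Nz a) :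
    ∃ (p q : Fin 2 → ℂ) (r : Fin m → ℂ), p ≠ 0 ∧ q ≠ 0 ∧ r ≠ 0 ∧ fv a p q r = 0 ∧
      dt a r ≠ 0 := by
  obtain ⟨r, hr⟩ := exists_dt ha
  refine ⟨![1, 0], ![mt a r 0 1, -mt a r 0 0], r, ?_, ?_, ?_, ?_, hr⟩
  · intro h
    have := congrFun h 0
    simp at this
  · intro h
    have h0 := congrFun h 0
    have h1 := congrFun h 1
    simp at h0 h1
    apply hr
    unfold dt
    rw [h0, h1]
    ring
  · rintro rfl
    apply hr
    unfold dt mt
    simp
  · rw [fv_mt]
    simp only [Fin.sum_univ_two, Matrix.cons_val_zero, Matrix.cons_val_one,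
      Matrix.cons_val_fin_one]
    ring

/-- The first two coefficient vectors are linearly independent. -/
theorem exists_minor {m : ℕ} {a : Fin 2 → Fin 2 → Fin m → ℤ} (ha : Nz a) :
    ∃ k l, a 0 0 k * a 0 1 l - a 0 0 l * a 0 1 k ≠ 0 := by
  by_contra hc
  push Not at hc
  have e0 : (![1, 0] : Fin 2 → ℂ) ≠ 0 := by
    intro h
    have := congrFun h 0
    simp at this
  obtain ⟨k, hk⟩ := ha ![1, 0] ![1, 0] e0 e0
  have hk' : (a 0 0 k : ℂ) ≠ 0 := by
    intro h
    apply hk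
    unfold cv
    simp [Fin.sum_univ_two, h]
  have hq0 : (![(a 0 1 k : ℂ), -(a 0 0 k : ℂ)] : Fin 2 → ℂ) ≠ 0 := by
    intro h
    have := congrFun h 1
    simp at this
    exact hk' (by exact_mod_cast this)
  obtain ⟨l, hl⟩ := ha _ _ e0 hq0
  apply hl
  have h1 : ((a 0 0 k : ℂ) * a 0 1 l - a 0 0 l * a 0 1 k) = 0 := by exact_mod_cast hc k l
  unfold cv
  simp only [Fin.sum_univ_two, Matrix.cons_val_zero, Matrix.cons_val_one, Matrix.cons_val_fin_one]
  linear_combination -h1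

end Pool.Agent.H548.WM
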