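import Mathlib
import Pool.Agent.H548.WM.Hyp
import Pool.Agent.W978.QM.Bas

/-! The sum of content over norm. -/

namespace Pool.Agent.H548.WM

open Finset
open Pool.Agent.W978.QM (mn ct)

variable {m : ℕ}

theorem sum_biUnion_le {ι α : Type*} [DecidableEq ι] [DecidableEq α] (s : Finset ι)
    (t : ι → Finset α) (f : α → ℝ) (hf : ∀ x, 0 ≤ f x) :
    ∑ x ∈ s.biUnion t, f x ≤ ∑ i ∈ s, ∑ x ∈ t i, f x := by
  induction s using Finset.induction_on with
  | empty => simp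
  | insert i s hi ih =>
    rw [Finset.biUnion_insert, Finset.sum_insert hi]
    have h1 := Finset.sum_union_inter (s₁ := t i) (s₂ := s.biUnion t) (f := f)
    have h2 : 0 ≤ ∑ x ∈ t i ∩ s.biUnion t, f x := Finset.sum_nonneg fun x _ => hf x
    linarith

/-- A bound for the coefficients. -/
def mxa (a : Fin 2 → Fin 2 → Fin m → ℤ) : ℕ := 1 + ∑ i, ∑ j, ∑ k, (a i j k).natAbs

theorem one_le_mxa (a : Fin 2 → Fin 2 → Fin m → ℤ) : 1 ≤ mxa a := by unfold mxa; omega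

theorem sum_le_mxa (a : Fin 2 → Fin 2 → Fin m → ℤ) (i j : Fin 2) :
    ∑ k, |a i j k| ≤ (mxa a : ℤ) := by
  have h2 : ∑ k, (a i j k).natAbs ≤ ∑ j, ∑ k, (a i j k).natAbs :=
    Finset.single_le_sum (f := fun j => ∑ k, (a i j k).natAbs) (fun _ _ => Nat.zero_le _)
      (mem_univ j)
  have h3 : ∑ j, ∑ k, (a i j k).natAbs ≤ ∑ i, ∑ j, ∑ k, (a i j k).natAbs :=
    Finset.single_le_sum (f := fun i => ∑ j, ∑ k, (a i j k).natAbs) (fun _ _ => Nat.zero_le _)
      (mem_univ i)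
  have h5 : ∑ k, (a i j k).natAbs ≤ mxa a := by unfold mxa; omega
  simp only [Int.abs_eq_natAbs]
  exact_mod_cast h5

theorem le_mxa (a : Fin 2 → Fin 2 → Fin m → ℤ) (i j : Fin 2) (k : Fin m) :
    |a i j k| ≤ (mxa a : ℤ) :=
  le_trans (Finset.single_le_sum (f := fun k => |a i j k|) (fun _ _ => abs_nonneg _)
    (mem_univ k)) (sum_le_mxa a i j)

theorem mt_le (a : Fin 2 → Fin 2 → Fin m → ℤ) (r : Fin m → ℤ) (i j : Fin 2) :
    |mt a r i j| ≤ mxa a * ht r := by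
  unfold mt
  calc |∑ k, (a i j k : ℤ) * r k| ≤ ∑ k, |(a i j k : ℤ) * r k| := Finset.abs_sum_le_sum_abs _ _
    _ ≤ ∑ k, |a i j k| * ht r := by
        apply Finset.sum_le_sum
        intro k _
        rw [abs_mul]
        have := le_ht' r k
        gcongr
    _ = (∑ k, |a i j k|) * ht r := by rw [Finset.sum_mul]
    _ ≤ mxa a * ht r := by
        have := sum_le_mxa a i j
        gcongr

theorem mn_le {M : Fin 2 → Fin 2 → ℤ} {X : ℤ} (h : ∀ i j, |M i j| ≤ X) : mn M ≤ X := by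
  unfold mn
  exact max_le (max_le (h 0 0) (h 0 1)) (max_le (h 1 0) (h 1 1))

theorem le_mn (M : Fin 2 → Fin 2 → ℤ) (i j : Fin 2) : |M i j| ≤ mn M := by
  unfold mn
  fin_cases i <;> fin_cases j
  · exact le_max_of_le_left (le_max_left _ _)
  · exact le_max_of_le_left (le_max_right _ _)
  · exact le_max_of_le_right (le_max_left _ _)
  · exact le_max_of_le_right (le_max_right _ _)

theorem ct_dvd (M : Fin 2 → Fin 2 → ℤ) (i j : Fin 2) : (ct M : ℤ) ∣ M i j := by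
  have h0 : ((Int.gcd (M 0 0) (M 0 1) : ℕ) : ℤ) ∣ M 0 0 := Int.gcd_dvd_left ..
  have h1 : ((Int.gcd (M 0 0) (M 0 1) : ℕ) : ℤ) ∣ M 0 1 := Int.gcd_dvd_right ..
  have h2 : ((Int.gcd (M 1 0) (M 1 1) : ℕ) : ℤ) ∣ M 1 0 := Int.gcd_dvd_left ..
  have h3 : ((Int.gcd (M 1 0) (M 1 1) : ℕ) : ℤ) ∣ M 1 1 := Int.gcd_dvd_right ..
  have e0 : (ct M : ℤ) ∣ ((Int.gcd (M 0 0) (M 0 1) : ℕ) : ℤ) := by
    exact_mod_cast Nat.gcd_dvd_left _ _
  have e1 : (ct M : ℤ) ∣ ((Int.gcd (M 1 0) (M 1 1) : ℕ) : ℤ) := by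
    exact_mod_cast Nat.gcd_dvd_right _ _
  fin_cases i <;> fin_cases j
  · exact e0.trans h0
  · exact e0.trans h1
  · exact e1.trans h2
  · exact e1.trans h3

/-- For a matrix with nonzero determinant. -/
theorem ct_pos {a : Fin 2 → Fin 2 → Fin m → ℤ} {r : Fin m → ℤ} (h : dt a r ≠ 0) :
    1 ≤ ct (mt a r) ∧ (ct (mt a r) : ℤ) ≤ mn (mt a r) := by
  have h0 : ∃ i j, mt a r i j ≠ 0 := by
    by_contra hc
    push Not at hc
    apply h
    unfold dt
    rw [hc 0 0, hc 0 1]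
    ring
  obtain ⟨i, j, hij⟩ := h0
  have hd := ct_dvd (mt a r) i j
  constructor
  · rw [Nat.one_le_iff_ne_zero]
    intro h0
    rw [h0] at hd
    simp at hd
    exact hij hd
  · have h1 : (ct (mt a r) : ℤ) ≤ |mt a r i j| :=
      Int.le_of_dvd (abs_pos.2 hij) ((dvd_abs _ _).2 hd)
    exact h1.trans (le_mn _ i j)

/-- The vectors which are zero at two places. -/
noncomputable def rs (k l : Fin m) (Z : ℕ) : Finset (Fin m → ℤ) :=
  Fintype.piFinset fun i => if i = k ∨ i = l then {0} else Finset.Icc (-(Z : ℤ)) Z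

theorem card_rs {k l : Fin m} (hkl : k ≠ l) (Z : ℕ) :
    (rs k l Z).card = (2 * Z + 1) ^ (m - 2) := by
  unfold rs
  rw [Fintype.card_piFinset]
  have h1 : ∀ i, (if i = k ∨ i = l then ({0} : Finset ℤ) else Finset.Icc (-(Z : ℤ)) Z).card =
      if i = k ∨ i = l then 1 else 2 * Z + 1 := by
    intro i
    split_ifs
    · simp
    · rw [Int.card_Icc]; omega
  simp only [h1]
  rw [Finset.prod_ite, Finset.prod_const_one, one_mul, Finset.prod_const]
  congr 1
  have h2 : (univ.filter fun i => i = k ∨ i = l) = {k, l} := by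
    ext i
    simp
  have h3 := Finset.card_filter_add_card_filter_not (s := (univ : Finset (Fin m)))
    (p := fun i => i = k ∨ i = l)
  rw [h2, Finset.card_pair hkl, card_univ, Fintype.card_fin] at h3
  omega

/-- The injectivity. -/
theorem inj_rs {a : Fin 2 → Fin 2 → Fin m → ℤ} {k l : Fin m}
    (hm : a 0 0 k * a 0 1 l - a 0 0 l * a 0 1 k ≠ 0) {r r' : Fin m → ℤ}
    (h0 : mt a r 0 0 = mt a r' 0 0) (h1 : mt a r 0 1 = mt a r' 0 1)
    (h : ∀ i, ¬ (i = k ∨ i = l) → r i = r' i) : r = r' := by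
  have hkl : k ≠ l := by
    rintro rfl
    apply hm
    ring
  have key : ∀ (b : Fin m → ℤ), ∑ i, b i * r i = ∑ i, b i * r' i →
      b k * (r k - r' k) + b l * (r l - r' l) = 0 := by
    intro b hb
    have h2 : ∑ i, b i * (r i - r' i) = 0 := by
      simp only [mul_sub, Finset.sum_sub_distrib]
      rw [hb, sub_self]
    rwa [Fintype.sum_eq_add k l hkl] at h2
    intro i hi
    rw [h i (by tauto)]
    ring
  have e0 := key (a 0 0) (by simpa [mt] using h0)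
  have e1 := key (a 0 1) (by simpa [mt] using h1)
  have hk : r k = r' k := by
    have : (a 0 0 k * a 0 1 l - a 0 0 l * a 0 1 k) * (r k - r' k) = 0 := by
      linear_combination a 0 1 l * e0 - a 0 0 l * e1
    rcases mul_eq_zero.1 this with h | h
    · exact absurd h hm
    · linarith
  have hl : r l = r' l := by
    have : (a 0 0 k * a 0 1 l - a 0 0 l * a 0 1 k) * (r l - r' l) = 0 := by
      linear_combination a 0 0 k * e1 - a 0 1 k * e0
    rcases mul_eq_zero.1 this with h | h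
    · exact absurd h hm
    · linarith
  funext i
  by_cases hi : i = k ∨ i = l
  · rcases hi with rfl | rfl
    · exact hk
    · exact hl
  · exact h i hi

open Classical in
/-- The level sets. -/
theorem card_level {a : Fin 2 → Fin 2 → Fin m → ℤ} {k l : Fin m}
    (hm : a 0 0 k * a 0 1 l - a 0 0 l * a 0 1 k ≠ 0) (Z j : ℕ) :
    ((bx m Z).filter fun r => dt a r ≠ 0 ∧ (2 ^ j * ct (mt a r) : ℤ) ≤ mn (mt a r) ∧
      mn (mt a r) < 2 ^ (j + 1) * ct (mt a r)).card ≤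
      (mxa a * Z / 2 ^ j) * ((5 * 2 ^ j) * (5 * 2 ^ j)) * (2 * Z + 1) ^ (m - 2) := by
  have hkl : k ≠ l := by
    rintro rfl
    apply hm
    ring
  set J : Finset ℤ := Finset.Icc (-((2 : ℤ) ^ (j + 1))) (2 ^ (j + 1)) with hJ
  have hJc : J.card ≤ 5 * 2 ^ j := by
    rw [hJ, Int.card_Icc]
    have h1 : (2 : ℤ) ^ (j + 1) = 2 * 2 ^ j := by ring
    have h2 : (1 : ℤ) ≤ 2 ^ j := one_le_pow₀ (by norm_num)
    rw [h1]
    have h3 : (2 * 2 ^ j + 1 - -(2 * 2 ^ j) : ℤ) ≤ 5 * 2 ^ j := by linarith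
    have h4 := Int.toNat_le_toNat h3
    refine h4.trans (le_of_eq ?_)
    have : (5 * 2 ^ j : ℤ) = ((5 * 2 ^ j : ℕ) : ℤ) := by push_cast; ring
    rw [this, Int.toNat_natCast]
  set T : Finset (ℕ × (ℤ × ℤ) × (Fin m → ℤ)) :=
    (Finset.Icc 1 (mxa a * Z / 2 ^ j)) ×ˢ ((J ×ˢ J) ×ˢ rs k l Z) with hT
  have hTc : T.card ≤
      (mxa a * Z / 2 ^ j) * ((5 * 2 ^ j) * (5 * 2 ^ j)) * (2 * Z + 1) ^ (m - 2) := by
    rw [hT, card_product, card_product, card_product, card_rs hkl, Nat.card_Icc,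
      Nat.add_sub_cancel, ← mul_assoc]
    gcongr
  refine le_trans ?_ hTc
  apply Finset.card_le_card_of_injOn
    (fun r : Fin m → ℤ => (ct (mt a r), (mt a r 0 0 / ct (mt a r), mt a r 0 1 / ct (mt a r)),
      fun i => if i = k ∨ i = l then 0 else r i))
  · intro r hr
    rw [mem_coe, mem_filter] at hr
    obtain ⟨hr, hd, h1, h2⟩ := hr
    rw [mem_bx] at hr
    obtain ⟨hc, hc'⟩ := ct_pos hd
    have hcZ : (0 : ℤ) < ct (mt a r) := by exact_mod_cast hc
    rw [mem_coe, hT, mem_product, mem_product, mem_product, mem_Icc]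
    have hq : ∀ i j', mt a r i j' / ct (mt a r) ∈ J := by
      intro i j'
      obtain ⟨x, hx⟩ := ct_dvd (mt a r) i j'
      rw [hx, Int.mul_ediv_cancel_left _ hcZ.ne', hJ, mem_Icc, ← abs_le]
      have h3 := le_mn (mt a r) i j'
      rw [hx, abs_mul, abs_of_pos hcZ] at h3
      have h4 : (ct (mt a r) : ℤ) * |x| < ct (mt a r) * 2 ^ (j + 1) := by
        calc (ct (mt a r) : ℤ) * |x| ≤ mn (mt a r) := h3
          _ < 2 ^ (j + 1) * ct (mt a r) := h2
          _ = ct (mt a r) * 2 ^ (j + 1) := by ring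
      exact (lt_of_mul_lt_mul_left h4 hcZ.le).le
    refine ⟨⟨hc, ?_⟩, ⟨hq 0 0, hq 0 1⟩, ?_⟩
    · rw [Nat.le_div_iff_mul_le (by positivity)]
      have h3 : mn (mt a r) ≤ mxa a * ht r := mn_le (mt_le a r)
      have h4 : (ht r : ℤ) ≤ Z := by exact_mod_cast hr
      have h5 : ((ct (mt a r) * 2 ^ j : ℕ) : ℤ) ≤ ((mxa a * Z : ℕ) : ℤ) := by
        push_cast
        calc (ct (mt a r) : ℤ) * 2 ^ j = 2 ^ j * ct (mt a r) := by ring
          _ ≤ mn (mt a r) := h1
          _ ≤ mxa a * ht r := h3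
          _ ≤ mxa a * Z := by gcongr
      exact_mod_cast h5
    · unfold rs
      rw [Fintype.mem_piFinset]
      intro i
      simp only
      split_ifs with hi
      · simp
      · rw [mem_Icc, ← abs_le]
        exact (le_ht' r i).trans (by exact_mod_cast hr)
  · intro r hr r' hr' heq
    rw [mem_coe, mem_filter] at hr hr'
    obtain ⟨hr, hd, -, -⟩ := hr
    obtain ⟨hr', hd', -, -⟩ := hr'
    simp only [Prod.mk.injEq] at heq
    obtain ⟨e1, ⟨e2, e3⟩, e4⟩ := heq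
    obtain ⟨hc, -⟩ := ct_pos hd
    have hcZ : (0 : ℤ) < ct (mt a r) := by exact_mod_cast hc
    rw [← e1] at e2 e3
    have key : ∀ i j', mt a r i j' / ct (mt a r) = mt a r' i j' / ct (mt a r) →
        mt a r i j' = mt a r' i j' := by
      intro i j' h
      obtain ⟨x, hx⟩ := ct_dvd (mt a r) i j'
      obtain ⟨y, hy⟩ := ct_dvd (mt a r') i j'
      rw [← e1] at hy
      rw [hx, hy, Int.mul_ediv_cancel_left _ hcZ.ne', Int.mul_ediv_cancel_left _ hcZ.ne'] at h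
      rw [hx, hy, h]
    refine inj_rs hm (key _ _ e2) (key _ _ e3) fun i hi => ?_
    have := congrFun e4 i
    simpa only [if_neg hi] using this

open Classical in
/-- The sum of content over norm. -/
theorem sum_ct {a : Fin 2 → Fin 2 → Fin m → ℤ} {k l : Fin m}
    (hm : a 0 0 k * a 0 1 l - a 0 0 l * a 0 1 k ≠ 0) (Z : ℕ) (hZ : 1 ≤ Z) :
    ∑ r ∈ (bx m Z).filter (fun r => dt a r ≠ 0), (ct (mt a r) : ℝ) / mn (mt a r) ≤
      ((Nat.log 2 (mxa a * Z) : ℕ) + 1 : ℝ) * (25 * mxa a * Z * (3 * Z : ℝ) ^ (m - 2)) := by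
  set S := (bx m Z).filter (fun r => dt a r ≠ 0) with hS
  set Lv : ℕ → Finset (Fin m → ℤ) := fun j => (bx m Z).filter fun r => dt a r ≠ 0 ∧
    (2 ^ j * ct (mt a r) : ℤ) ≤ mn (mt a r) ∧ mn (mt a r) < 2 ^ (j + 1) * ct (mt a r) with hLv
  have hsub : S ⊆ (range (Nat.log 2 (mxa a * Z) + 1)).biUnion Lv := by
    intro r hr
    rw [hS, mem_filter] at hr
    obtain ⟨hr, hd⟩ := hr
    obtain ⟨hc, hc'⟩ := ct_pos hd
    have hrZ := mem_bx.1 hr
    have hmn0 : 0 ≤ mn (mt a r) := le_trans (abs_nonneg _) (le_mn _ 0 0)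
    obtain ⟨N, hN⟩ := Int.eq_ofNat_of_zero_le hmn0
    rw [hN] at hc'
    have hcN : ct (mt a r) ≤ N := by exact_mod_cast hc'
    set z := N / ct (mt a r) with hz
    have hz1 : 1 ≤ z := (Nat.one_le_div_iff (by omega)).2 hcN
    have hNK : N ≤ mxa a * Z := by
      have h3 : mn (mt a r) ≤ mxa a * ht r := mn_le (mt_le a r)
      rw [hN] at h3
      have h4 : N ≤ mxa a * ht r := by exact_mod_cast h3
      exact h4.trans (Nat.mul_le_mul_left _ hrZ)
    have hzK : z ≤ mxa a * Z := (Nat.div_le_self _ _).trans hNK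
    rw [mem_biUnion]
    refine ⟨Nat.log 2 z, ?_, ?_⟩
    · rw [mem_range]
      exact Nat.lt_succ_of_le (Nat.log_mono_right hzK)
    · rw [hLv, mem_filter]
      refine ⟨hr, hd, ?_, ?_⟩
      · rw [hN]
        have h1 := Nat.pow_log_le_self 2 (show z ≠ 0 by omega)
        have h2 : 2 ^ Nat.log 2 z * ct (mt a r) ≤ N :=
          (Nat.mul_le_mul_right _ h1).trans (Nat.div_mul_le_self _ _)
        exact_mod_cast h2
      · rw [hN]
        have h1 := Nat.lt_pow_succ_log_self (b := 2) (by norm_num) z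
        have h2 : N < (z + 1) * ct (mt a r) := by
          rw [mul_comm]
          exact Nat.lt_mul_div_succ N (by omega)
        have h3 : N < 2 ^ (Nat.log 2 z + 1) * ct (mt a r) :=
          lt_of_lt_of_le h2 (Nat.mul_le_mul_right _ h1)
        exact_mod_cast h3
  have hnn : ∀ r, (0 : ℝ) ≤ (ct (mt a r) : ℝ) / mn (mt a r) := by
    intro r
    have : (0 : ℤ) ≤ mn (mt a r) := le_trans (abs_nonneg _) (le_mn _ 0 0)
    have : (0 : ℝ) ≤ mn (mt a r) := by exact_mod_cast this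
    positivity
  have hlev : ∀ j, ∑ r ∈ Lv j, (ct (mt a r) : ℝ) / mn (mt a r) ≤
      25 * mxa a * Z * (3 * Z : ℝ) ^ (m - 2) := by
    intro j
    have h1 : ∀ r ∈ Lv j, (ct (mt a r) : ℝ) / mn (mt a r) ≤ 1 / 2 ^ j := by
      intro r hr
      rw [hLv, mem_filter] at hr
      obtain ⟨hr, hd, h1, h2⟩ := hr
      obtain ⟨hc, hc'⟩ := ct_pos hd
      have h0 : (0 : ℤ) < mn (mt a r) := lt_of_lt_of_le (by exact_mod_cast hc) hc'
      have h0' : (0 : ℝ) < mn (mt a r) := by exact_mod_cast h0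
      rw [div_le_div_iff₀ h0' (by positivity)]
      have h3 : ((2 : ℝ) ^ j * ct (mt a r)) ≤ mn (mt a r) := by exact_mod_cast h1
      linarith
    have h2 := card_level hm Z j
    have h3 : ((Lv j).card : ℝ) ≤ (mxa a * Z / 2 ^ j) * ((5 * 2 ^ j) * (5 * 2 ^ j)) *
        (3 * Z : ℝ) ^ (m - 2) := by
      have h4 : ((Lv j).card : ℝ) ≤ (((mxa a * Z / 2 ^ j) * ((5 * 2 ^ j) * (5 * 2 ^ j)) *
        (2 * Z + 1) ^ (m - 2) : ℕ) : ℝ) := by exact_mod_cast h2
      refine h4.trans ?_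
      push_cast
      have h5 : (((mxa a * Z / 2 ^ j : ℕ)) : ℝ) ≤ (mxa a : ℝ) * Z / 2 ^ j := by
        have := @Nat.cast_div_le ℝ _ _ _ (mxa a * Z) (2 ^ j)
        push_cast at this
        exact this
      have hZ' : (1 : ℝ) ≤ Z := by exact_mod_cast hZ
      have h6 : (2 * (Z : ℝ) + 1) ≤ 3 * Z := by linarith
      gcongr
    calc ∑ r ∈ Lv j, (ct (mt a r) : ℝ) / mn (mt a r) ≤ ∑ r ∈ Lv j, (1 / 2 ^ j : ℝ) :=
          Finset.sum_le_sum h1
      _ = (Lv j).card * (1 / 2 ^ j : ℝ) := by rw [Finset.sum_const, nsmul_eq_mul]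
      _ ≤ ((mxa a * Z / 2 ^ j) * ((5 * 2 ^ j) * (5 * 2 ^ j)) *
        (3 * Z : ℝ) ^ (m - 2)) * (1 / 2 ^ j : ℝ) := by gcongr
      _ = 25 * mxa a * Z * (3 * Z : ℝ) ^ (m - 2) := by
          have : (2 : ℝ) ^ j ≠ 0 := by positivity
          field_simp
          ring
  calc ∑ r ∈ S, (ct (mt a r) : ℝ) / mn (mt a r)
      ≤ ∑ r ∈ (range (Nat.log 2 (mxa a * Z) + 1)).biUnion Lv,
          (ct (mt a r) : ℝ) / mn (mt a r) :=
        Finset.sum_le_sum_of_subset_of_nonneg hsub fun r _ _ => hnn r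
    _ ≤ ∑ j ∈ range (Nat.log 2 (mxa a * Z) + 1), ∑ r ∈ Lv j,
          (ct (mt a r) : ℝ) / mn (mt a r) :=
        sum_biUnion_le _ _ _ (fun r => hnn r)
    _ ≤ ∑ j ∈ range (Nat.log 2 (mxa a * Z) + 1), (25 * mxa a * Z * (3 * Z : ℝ) ^ (m - 2)) :=
        Finset.sum_le_sum fun j _ => hlev j
    _ = _ := by
        rw [Finset.sum_const, card_range, nsmul_eq_mul]
        push_cast
        ring

end Pool.Agent.H548.WM
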