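import Mathlib
import Pool.Agent.H548.WM.Gcd
import Pool.Agent.H548.WM.Geo
import Pool.Agent.H548.WM.Sum
import Pool.Agent.W571.QM.Bil
import Pool.Agent.W82.QM.PAR

/-! The count in a dyadic box. -/

namespace Pool.Agent.H548.WM

open Finset
open Pool.Agent.W978.QM (mn ct Prim)

/-- The points in a dyadic box. -/
noncomputable def cs {m : ℕ} (a : Fin 2 → Fin 2 → Fin m → ℤ) (A B Z : ℕ) :
    Finset ((Fin 2 → ℤ) × (Fin 2 → ℤ) × (Fin m → ℤ)) := by
  classical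
  exact (bx 2 A ×ˢ (bx 2 B ×ˢ bx m Z)).filter fun x =>
    Prim x.1 ∧ Prim x.2.1 ∧ A ≤ 2 * ht x.1 ∧ B ≤ 2 * ht x.2.1 ∧ dt a x.2.2 ≠ 0 ∧
      fv a x.1 x.2.1 x.2.2 = 0

theorem norm_cast {m : ℕ} (v : Fin m → ℤ) : ‖(fun i => (v i : ℝ))‖ = ht v := by
  apply le_antisymm
  · rw [pi_norm_le_iff_of_nonneg (by positivity)]
    intro i
    rw [Real.norm_eq_abs]
    exact_mod_cast le_ht' v i
  · rcases Nat.eq_zero_or_pos m with rfl | hm
    · unfold ht
      simp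
    · obtain ⟨i, hi⟩ := exists_ht hm v
      have h1 := norm_le_pi_norm (fun i => (v i : ℝ)) i
      rw [Real.norm_eq_abs] at h1
      refine le_trans (le_of_eq ?_) h1
      exact_mod_cast hi.symm

theorem cv_le {m : ℕ} (a : Fin 2 → Fin 2 → Fin m → ℤ) {p q : Fin 2 → ℤ} {A B : ℕ}
    (hp : ht p ≤ A) (hq : ht q ≤ B) (k : Fin m) : |cv a p q k| ≤ 4 * mxa a * (A * B) := by
  have hpi : ∀ i, |p i| ≤ (A : ℤ) := fun i => (le_ht' p i).trans (by exact_mod_cast hp)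
  have hqi : ∀ i, |q i| ≤ (B : ℤ) := fun i => (le_ht' q i).trans (by exact_mod_cast hq)
  unfold cv
  calc |∑ i, ∑ j, (a i j k : ℤ) * p i * q j| ≤ ∑ i, ∑ j, |(a i j k : ℤ) * p i * q j| :=
        (Finset.abs_sum_le_sum_abs _ _).trans
          (Finset.sum_le_sum fun i _ => Finset.abs_sum_le_sum_abs _ _)
    _ ≤ ∑ i : Fin 2, ∑ j : Fin 2, ((mxa a : ℤ) * A * B) := by
        refine Finset.sum_le_sum fun i _ => Finset.sum_le_sum fun j _ => ?_
        rw [abs_mul, abs_mul]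
        have h1 := le_mxa a i j k
        have h2 := hpi i
        have h3 := hqi j
        gcongr
    _ = 4 * mxa a * (A * B) := by
        simp only [Fin.sum_univ_two]
        ring

/-- The greatest common divisor in Bezout form. -/
theorem exists_gcd {m : ℕ} (c : Fin m → ℤ) (hc : ∃ k, c k ≠ 0) :
    ∃ (g : ℕ) (u : Fin m → ℤ), 1 ≤ g ∧ ∑ k, u k * c k = g ∧ ∀ k, (g : ℤ) ∣ c k := by
  set I : Ideal ℤ := Ideal.span (Set.range c) with hI
  have hp : I.IsPrincipal := IsPrincipalIdealRing.principal I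
  obtain ⟨g0, hg0⟩ := hp.principal
  have h1 : g0 ∈ I := by
    rw [hg0]
    exact Submodule.mem_span_singleton_self g0
  have h2 : ∀ k, g0 ∣ c k := by
    intro k
    have : c k ∈ I := Ideal.subset_span ⟨k, rfl⟩
    rw [hg0] at this
    exact Ideal.mem_span_singleton.1 this
  obtain ⟨u, hu⟩ := Ideal.mem_span_range_iff_exists_fun.1 h1
  have h3 : g0 ≠ 0 := by
    rintro rfl
    obtain ⟨k, hk⟩ := hc
    exact hk (zero_dvd_iff.1 (h2 k))
  refine ⟨g0.natAbs, fun k => g0.sign * u k, ?_, ?_, ?_⟩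
  · have := Int.natAbs_pos.2 h3
    omega
  · have : ∑ k, g0.sign * u k * c k = g0.sign * ∑ k, u k * c k := by
      rw [Finset.mul_sum]
      exact Finset.sum_congr rfl fun k _ => by ring
    rw [this, hu, Int.sign_mul_self_eq_natAbs]
  · intro k
    exact Int.natAbs_dvd.2 (h2 k)

open Classical in
/-- The number of `r` for given `p`, `q`. -/
theorem fib1 {n : ℕ} {a : Fin 2 → Fin 2 → Fin (n + 1) → ℤ} (ha : Nz a) :
    ∃ C : ℝ, 0 < C ∧ ∀ A B Z : ℕ, 1 ≤ A → 1 ≤ B → 1 ≤ Z → A * B ≤ Z → ∀ p q : Fin 2 → ℤ,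
      Prim p → Prim q → ht p ≤ A → ht q ≤ B → A ≤ 2 * ht p → B ≤ 2 * ht q →
      (((bx (n + 1) Z).filter fun r => fv a p q r = 0).card : ℝ) ≤
        C * ((Z : ℝ) ^ n / (A * B)) := by
  obtain ⟨κ, hκ, hsz⟩ := size_real ha
  obtain ⟨K₂, hK₂, hcont⟩ := content ha
  refine ⟨((4 * mxa a + 4 : ℕ) : ℝ) ^ (n + 1) * (4 * K₂ / κ), by positivity, ?_⟩
  intro A B Z hA hB hZ hABZ p q hp hq hpA hqB hpA' hqB'
  set c := cv a p q with hc
  have hA' : (0 : ℝ) < A := by exact_mod_cast hA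
  have hB' : (0 : ℝ) < B := by exact_mod_cast hB
  have hZ' : (0 : ℝ) < Z := by exact_mod_cast hZ
  -- the size
  have h1 : κ * ((ht p : ℝ) * ht q) ≤ ht c := by
    have h := hsz (fun i => (p i : ℝ)) (fun i => (q i : ℝ))
    have h2 : cv a (fun i => (p i : ℝ)) (fun i => (q i : ℝ)) = fun k => (c k : ℝ) := by
      funext k
      rw [hc]
      simp [cv]
    rwa [h2, norm_cast, norm_cast, norm_cast] at h
  have h2 : κ * (A * B) ≤ 4 * ht c := by
    have e1 : (A : ℝ) ≤ 2 * ht p := by exact_mod_cast hpA'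
    have e2 : (B : ℝ) ≤ 2 * ht q := by exact_mod_cast hqB'
    calc κ * (A * B) ≤ κ * ((2 * ht p) * (2 * ht q)) := by gcongr
      _ = 4 * (κ * ((ht p : ℝ) * ht q)) := by ring
      _ ≤ 4 * ht c := by gcongr
  have hc0 : 0 < ht c := by
    have h3 : (0 : ℝ) < 4 * ht c := lt_of_lt_of_le (by positivity) h2
    have h4 : (0 : ℝ) < ht c := by linarith
    exact_mod_cast h4
  obtain ⟨k0, hk0⟩ := exists_ht (Nat.succ_pos n) c
  have hck0 : c k0 ≠ 0 := by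
    intro h
    rw [h, abs_zero] at hk0
    have : (0 : ℤ) < ht c := by exact_mod_cast hc0
    omega
  obtain ⟨g, u, hg, hu, hgd⟩ := exists_gcd c ⟨k0, hck0⟩
  obtain ⟨x, hx⟩ := hgd k0
  have hx0 : x ≠ 0 := by
    rintro rfl
    apply hck0
    rw [hx, mul_zero]
  have hN : (c k0).natAbs = g * x.natAbs := by
    rw [hx, Int.natAbs_mul, Int.natAbs_natCast]
  have hN' : 1 ≤ x.natAbs := by
    have := Int.natAbs_pos.2 hx0
    omega
  have hgN : ht c = g * x.natAbs := by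
    rw [← hN]
    have := hk0
    rw [Int.abs_eq_natAbs] at this
    exact_mod_cast this.symm
  have hK : g * x.natAbs ≤ 4 * mxa a * Z := by
    rw [← hgN]
    apply ht_le
    intro k
    refine (cv_le a hpA hqB k).trans ?_
    have h3 : ((A * B : ℕ) : ℤ) ≤ Z := by exact_mod_cast hABZ
    push_cast at h3 ⊢
    gcongr
  have h3 := hyp c u g x.natAbs k0 Z (4 * mxa a) hg hN' hu hN hK hZ
  have hgK : g ≤ K₂ := by
    have := hcont p q hp hq g hgd
    exact Nat.le_of_dvd (by omega) (by exact_mod_cast this)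
  have hset : ((bx (n + 1) Z).filter fun r => fv a p q r = 0) =
      (bx (n + 1) Z).filter fun r => ∑ k, c k * r k = 0 := by
    apply Finset.filter_congr
    intro r _
    rw [fv_cv]
  rw [hset]
  set S := (bx (n + 1) Z).filter fun r => ∑ k, c k * r k = 0 with hS
  have h4 : (S.card : ℝ) * (Z * x.natAbs) ≤ ((4 * mxa a + 4 : ℕ) * Z : ℝ) ^ (n + 1) := by
    exact_mod_cast h3
  have h5 : κ * (A * B) ≤ 4 * K₂ * x.natAbs := by
    refine h2.trans ?_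
    rw [hgN]
    push_cast
    have : (g : ℝ) ≤ K₂ := by exact_mod_cast hgK
    have : (0 : ℝ) ≤ x.natAbs := by positivity
    nlinarith
  have hX : (0 : ℝ) < x.natAbs := by exact_mod_cast hN'
  have h6 : (S.card : ℝ) * x.natAbs ≤ ((4 * mxa a + 4 : ℕ) : ℝ) ^ (n + 1) * (Z : ℝ) ^ n := by
    have : (S.card : ℝ) * x.natAbs * Z ≤
        ((4 * mxa a + 4 : ℕ) : ℝ) ^ (n + 1) * (Z : ℝ) ^ n * Z := by
      calc (S.card : ℝ) * x.natAbs * Z = (S.card : ℝ) * (Z * x.natAbs) := by ring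
        _ ≤ ((4 * mxa a + 4 : ℕ) * Z : ℝ) ^ (n + 1) := h4
        _ = ((4 * mxa a + 4 : ℕ) : ℝ) ^ (n + 1) * (Z : ℝ) ^ n * Z := by
            rw [mul_pow, pow_succ (Z : ℝ)]
            ring
    exact le_of_mul_le_mul_right this hZ'
  rw [show ((4 * mxa a + 4 : ℕ) : ℝ) ^ (n + 1) * (4 * K₂ / κ) * ((Z : ℝ) ^ n / (A * B)) =
    (((4 * mxa a + 4 : ℕ) : ℝ) ^ (n + 1) * (Z : ℝ) ^ n) * (4 * K₂) / (κ * (A * B)) by
    field_simp]
  rw [le_div_iff₀ (by positivity)]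
  calc (S.card : ℝ) * (κ * (A * B)) ≤ S.card * (4 * K₂ * x.natAbs) := by gcongr
    _ = (S.card * x.natAbs) * (4 * K₂) := by ring
    _ ≤ _ := by gcongr

theorem card_bx_le (m : ℕ) {X : ℕ} (hX : 1 ≤ X) : ((bx m X).card : ℝ) ≤ (3 * (X : ℝ)) ^ m := by
  rw [card_bx]
  push_cast
  have : (1 : ℝ) ≤ X := by exact_mod_cast hX
  gcongr
  linarith

open Classical in
/-- The first case. -/
theorem core1 {n : ℕ} {a : Fin 2 → Fin 2 → Fin (n + 1) → ℤ} (ha : Nz a) :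
    ∃ C : ℝ, 0 < C ∧ ∀ A B Z : ℕ, 1 ≤ A → 1 ≤ B → 1 ≤ Z → A * B ≤ Z →
      ((cs a A B Z).card : ℝ) ≤ C * (A * B * (Z : ℝ) ^ n) := by
  obtain ⟨C, hC, h⟩ := fib1 ha
  refine ⟨81 * C, by positivity, ?_⟩
  intro A B Z hA hB hZ hABZ
  have hA' : (0 : ℝ) < A := by exact_mod_cast hA
  have hB' : (0 : ℝ) < B := by exact_mod_cast hB
  have hZ' : (0 : ℝ) < Z := by exact_mod_cast hZ
  set P := (bx 2 A ×ˢ bx 2 B).filter fun x => Prim x.1 ∧ Prim x.2 ∧ A ≤ 2 * ht x.1 ∧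
    B ≤ 2 * ht x.2 with hP
  have hsub : cs a A B Z ⊆ P.biUnion fun x =>
      ((bx (n + 1) Z).filter fun r => fv a x.1 x.2 r = 0).image fun r => (x.1, x.2, r) := by
    rintro ⟨p, q, r⟩ hx
    unfold cs at hx
    rw [mem_filter, mem_product, mem_product] at hx
    obtain ⟨⟨h1, h2, h3⟩, h4, h5, h6, h7, h8, h9⟩ := hx
    rw [mem_biUnion]
    refine ⟨(p, q), ?_, ?_⟩
    · rw [hP, mem_filter, mem_product]
      exact ⟨⟨h1, h2⟩, h4, h5, h6, h7⟩
    · rw [mem_image]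
      exact ⟨r, by rw [mem_filter]; exact ⟨h3, h9⟩, rfl⟩
  have hPc : (P.card : ℝ) ≤ 81 * (A * B) ^ 2 := by
    have h1 : P.card ≤ (bx 2 A).card * (bx 2 B).card := by
      rw [← card_product]
      exact Finset.card_le_card (Finset.filter_subset _ _)
    have h2 := card_bx_le 2 hA
    have h3 := card_bx_le 2 hB
    calc (P.card : ℝ) ≤ (bx 2 A).card * (bx 2 B).card := by exact_mod_cast h1
      _ ≤ (3 * (A : ℝ)) ^ 2 * (3 * (B : ℝ)) ^ 2 := by gcongr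
      _ = 81 * (A * B) ^ 2 := by ring
  calc ((cs a A B Z).card : ℝ)
      ≤ ((P.biUnion fun x => ((bx (n + 1) Z).filter fun r => fv a x.1 x.2 r = 0).image
          fun r => (x.1, x.2, r)).card : ℝ) := by exact_mod_cast Finset.card_le_card hsub
    _ ≤ ∑ x ∈ P, ((((bx (n + 1) Z).filter fun r => fv a x.1 x.2 r = 0).card : ℕ) : ℝ) := by
        have h1 := Finset.card_biUnion_le (s := P) (t := fun x =>
          ((bx (n + 1) Z).filter fun r => fv a x.1 x.2 r = 0).image fun r => (x.1, x.2, r))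
        have h2 := h1.trans (Finset.sum_le_sum fun x _ => Finset.card_image_le)
        exact_mod_cast h2
    _ ≤ ∑ x ∈ P, C * ((Z : ℝ) ^ n / (A * B)) := by
        refine Finset.sum_le_sum fun x hx => ?_
        rw [hP, mem_filter, mem_product, mem_bx, mem_bx] at hx
        exact h A B Z hA hB hZ hABZ x.1 x.2 hx.2.1 hx.2.2.1 hx.1.1 hx.1.2 hx.2.2.2.1 hx.2.2.2.2
    _ = P.card * (C * ((Z : ℝ) ^ n / (A * B))) := by rw [Finset.sum_const, nsmul_eq_mul]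
    _ ≤ (81 * (A * B) ^ 2) * (C * ((Z : ℝ) ^ n / (A * B))) := by gcongr
    _ = 81 * C * (A * B * (Z : ℝ) ^ n) := by
        field_simp

open Classical in
/-- The number of `(p, q)` for given `r`. -/
theorem fib2 {m : ℕ} {a : Fin 2 → Fin 2 → Fin m → ℤ} (A B : ℕ) (hA : 1 ≤ A) (hB : 1 ≤ B)
    (r : Fin m → ℤ) (hr : dt a r ≠ 0) :
    (((bx 2 A ×ˢ bx 2 B).filter fun x => Prim x.1 ∧ Prim x.2 ∧ fv a x.1 x.2 r = 0).card : ℝ) ≤
      (dt a r).natAbs.divisors.card * (8 + 16 * (A * B) * ((ct (mt a r) : ℝ) / mn (mt a r))) := by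
  have h := Pool.Agent.W571.QM.bil Pool.Agent.W82.QM.par (mt a r) A B hA hB hr
  have hset : ((bx 2 A ×ˢ bx 2 B).filter fun x => Prim x.1 ∧ Prim x.2 ∧ fv a x.1 x.2 r = 0) =
      (((Pool.Agent.W978.QM.bx A) ×ˢ (Pool.Agent.W978.QM.bx B)).filter fun x =>
        Prim x.1 ∧ Prim x.2 ∧ ∑ k, ∑ l, mt a r k l * x.1 k * x.2 l = 0) := by
    apply Finset.filter_congr
    intro x _
    rw [fv_mt]
  rw [hset]
  refine h.trans (le_of_eq ?_)
  have : mt a r 0 0 * mt a r 1 1 - mt a r 0 1 * mt a r 1 0 = dt a r := rfl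
  rw [this]
  ring

theorem dt_le {m : ℕ} (a : Fin 2 → Fin 2 → Fin m → ℤ) {r : Fin m → ℤ} {Z : ℕ} (hr : ht r ≤ Z) :
    (dt a r).natAbs ≤ 2 * mxa a ^ 2 * Z ^ 2 := by
  have h : ∀ i j, |mt a r i j| ≤ mxa a * Z := fun i j =>
    (mt_le a r i j).trans (by
      have : (ht r : ℤ) ≤ Z := by exact_mod_cast hr
      gcongr)
  have h1 : |dt a r| ≤ 2 * mxa a ^ 2 * Z ^ 2 := by
    unfold dt
    calc |mt a r 0 0 * mt a r 1 1 - mt a r 0 1 * mt a r 1 0|
        ≤ |mt a r 0 0 * mt a r 1 1| + |mt a r 0 1 * mt a r 1 0| := abs_sub _ _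
      _ = |mt a r 0 0| * |mt a r 1 1| + |mt a r 0 1| * |mt a r 1 0| := by rw [abs_mul, abs_mul]
      _ ≤ (mxa a * Z) * (mxa a * Z) + (mxa a * Z) * (mxa a * Z) := by
          gcongr
          · exact h 0 0
          · exact h 1 1
          · exact h 0 1
          · exact h 1 0
      _ = 2 * mxa a ^ 2 * Z ^ 2 := by ring
  rw [Int.abs_eq_natAbs] at h1
  exact_mod_cast h1

open Classical in
/-- The second case. -/
theorem core2 {n : ℕ} (hn : 1 ≤ n) {a : Fin 2 → Fin 2 → Fin (n + 1) → ℤ} (ha : Nz a) (ε : ℝ)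
    (hε : 0 < ε) :
    ∃ C : ℝ, 0 < C ∧ ∀ A B Z : ℕ, 1 ≤ A → 1 ≤ B → 1 ≤ Z → Z ≤ A * B →
      ((cs a A B Z).card : ℝ) ≤ C * (A * B * (Z : ℝ) ^ n) * (Z : ℝ) ^ ε := by
  obtain ⟨k, l, hkl⟩ := exists_minor ha
  have hmx := one_le_mxa a
  obtain ⟨C, hC, hsm⟩ := Pool.Agent.W978.QM.small_bound (2 * mxa a ^ 2)
    (by have := Nat.one_le_pow 2 _ hmx; omega) (ε / 2) (by positivity)
  refine ⟨C ^ 2 * (8 * 3 ^ (n + 1) + 400 * mxa a * 3 ^ (n - 1)), by positivity, ?_⟩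
  intro A B Z hA hB hZ hZAB
  have hA' : (0 : ℝ) < A := by exact_mod_cast hA
  have hB' : (0 : ℝ) < B := by exact_mod_cast hB
  have hZ' : (0 : ℝ) < Z := by exact_mod_cast hZ
  have hZ1 : (1 : ℝ) ≤ Z := by exact_mod_cast hZ
  obtain ⟨hτ, hlog⟩ := hsm Z hZ
  set R := (bx (n + 1) Z).filter fun r => dt a r ≠ 0 with hR
  have hsub : cs a A B Z ⊆ R.biUnion fun r =>
      ((bx 2 A ×ˢ bx 2 B).filter fun x => Prim x.1 ∧ Prim x.2 ∧ fv a x.1 x.2 r = 0).image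
        fun x => (x.1, x.2, r) := by
    rintro ⟨p, q, r⟩ hx
    unfold cs at hx
    rw [mem_filter, mem_product, mem_product] at hx
    obtain ⟨⟨h1, h2, h3⟩, h4, h5, h6, h7, h8, h9⟩ := hx
    rw [mem_biUnion]
    refine ⟨r, ?_, ?_⟩
    · rw [hR, mem_filter]
      exact ⟨h3, h8⟩
    · rw [mem_image]
      exact ⟨(p, q), by rw [mem_filter, mem_product]; exact ⟨⟨h1, h2⟩, h4, h5, h9⟩, rfl⟩
  set τ : ℝ := C * (Z : ℝ) ^ (ε / 2) with hτdef
  have hτ1 : ∀ r ∈ R, (((dt a r).natAbs.divisors.card : ℕ) : ℝ) ≤ τ := by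
    intro r hr
    rw [hR, mem_filter, mem_bx] at hr
    have h1 := Int.natAbs_pos.2 hr.2
    exact hτ _ (by omega) (dt_le a hr.1)
  have hL : ((Nat.log 2 (mxa a * Z) : ℕ) : ℝ) + 1 ≤ τ := by
    apply hlog
    · exact Nat.mul_pos hmx hZ
    · exact Nat.mul_le_mul (by nlinarith) (Nat.le_self_pow (by norm_num) _)
  have hτ0 : 1 ≤ τ := by
    have h0 : (0 : ℝ) ≤ ((Nat.log 2 (mxa a * Z) : ℕ) : ℝ) := by positivity
    linarith
  have hnn : ∀ r : Fin (n + 1) → ℤ, (0 : ℝ) ≤ (ct (mt a r) : ℝ) / mn (mt a r) := by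
    intro r
    have : (0 : ℤ) ≤ mn (mt a r) := le_trans (abs_nonneg _) (le_mn _ 0 0)
    have : (0 : ℝ) ≤ mn (mt a r) := by exact_mod_cast this
    positivity
  have hRc : (R.card : ℝ) ≤ (3 * (Z : ℝ)) ^ (n + 1) := by
    refine le_trans ?_ (card_bx_le (n + 1) hZ)
    exact_mod_cast Finset.card_le_card (Finset.filter_subset _ _)
  have hZAB' : (Z : ℝ) ≤ A * B := by exact_mod_cast hZAB
  have hsum := sum_ct hkl Z hZ
  rw [← hR] at hsum
  have hn1 : n + 1 - 2 = n - 1 := by omega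
  rw [hn1] at hsum
  have hZn : (Z : ℝ) * (Z : ℝ) ^ (n - 1) = (Z : ℝ) ^ n := by
    rw [← pow_succ']
    congr 1
    omega
  have hτnn : 0 ≤ τ := by linarith
  calc ((cs a A B Z).card : ℝ)
      ≤ ((R.biUnion fun r =>
          ((bx 2 A ×ˢ bx 2 B).filter fun x => Prim x.1 ∧ Prim x.2 ∧ fv a x.1 x.2 r = 0).image
            fun x => (x.1, x.2, r)).card : ℝ) := by exact_mod_cast Finset.card_le_card hsub
    _ ≤ ∑ r ∈ R, ((((bx 2 A ×ˢ bx 2 B).filter fun x =>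
          Prim x.1 ∧ Prim x.2 ∧ fv a x.1 x.2 r = 0).card : ℕ) : ℝ) := by
        have h1 := Finset.card_biUnion_le (s := R) (t := fun r =>
          ((bx 2 A ×ˢ bx 2 B).filter fun x => Prim x.1 ∧ Prim x.2 ∧ fv a x.1 x.2 r = 0).image
            fun x => (x.1, x.2, r))
        have h2 := h1.trans (Finset.sum_le_sum fun x _ => Finset.card_image_le)
        exact_mod_cast h2
    _ ≤ ∑ r ∈ R, τ * (8 + 16 * (A * B) * ((ct (mt a r) : ℝ) / mn (mt a r))) := by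
        refine Finset.sum_le_sum fun r hr => ?_
        have hr' := hr
        rw [hR, mem_filter] at hr'
        refine (fib2 A B hA hB r hr'.2).trans ?_
        have h1 := hτ1 r hr
        have h2 := hnn r
        gcongr
    _ = τ * (8 * R.card + 16 * (A * B) * ∑ r ∈ R, ((ct (mt a r) : ℝ) / mn (mt a r))) := by
        rw [← Finset.mul_sum, Finset.sum_add_distrib, Finset.sum_const, ← Finset.mul_sum,
          nsmul_eq_mul]
        ring
    _ ≤ τ * (8 * (3 * (Z : ℝ)) ^ (n + 1) + 16 * (A * B) *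
          (τ * (25 * mxa a * Z * (3 * Z : ℝ) ^ (n - 1)))) := by
        have h1 : ∑ r ∈ R, ((ct (mt a r) : ℝ) / mn (mt a r)) ≤
            τ * (25 * mxa a * Z * (3 * Z : ℝ) ^ (n - 1)) := by
          refine hsum.trans ?_
          gcongr
        gcongr
    _ ≤ τ * (τ * (8 * (3 ^ (n + 1) * ((A * B) * (Z : ℝ) ^ n))) + 16 * (A * B) *
          (τ * (25 * mxa a * Z * (3 * Z : ℝ) ^ (n - 1)))) := by
        have h1 : 8 * (3 * (Z : ℝ)) ^ (n + 1) ≤
            τ * (8 * (3 ^ (n + 1) * ((A * B) * (Z : ℝ) ^ n))) := by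
          have h2 : (3 * (Z : ℝ)) ^ (n + 1) ≤ 3 ^ (n + 1) * ((A * B) * (Z : ℝ) ^ n) := by
            rw [mul_pow, pow_succ' (Z : ℝ)]
            gcongr
          calc 8 * (3 * (Z : ℝ)) ^ (n + 1) ≤ 8 * (3 ^ (n + 1) * ((A * B) * (Z : ℝ) ^ n)) := by
                gcongr
            _ = 1 * (8 * (3 ^ (n + 1) * ((A * B) * (Z : ℝ) ^ n))) := (one_mul _).symm
            _ ≤ _ := by gcongr
        gcongr
    _ = τ ^ 2 * ((8 * 3 ^ (n + 1) + 400 * mxa a * 3 ^ (n - 1)) * (A * B * (Z : ℝ) ^ n)) := by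
        rw [mul_pow 3 (Z : ℝ) (n - 1), ← hZn]
        ring
    _ = C ^ 2 * (8 * 3 ^ (n + 1) + 400 * mxa a * 3 ^ (n - 1)) * (A * B * (Z : ℝ) ^ n) *
          (Z : ℝ) ^ ε := by
        have : τ ^ 2 = C ^ 2 * (Z : ℝ) ^ ε := by
          rw [hτdef, mul_pow, ← Real.rpow_natCast ((Z : ℝ) ^ (ε / 2)) 2, ← Real.rpow_mul hZ'.le]
          congr 2
          push_cast
          ring
        rw [this]
        ring

/-- The count in a dyadic box. -/
theorem core {n : ℕ} (hn : 1 ≤ n) {a : Fin 2 → Fin 2 → Fin (n + 1) → ℤ} (ha : Nz a) (ε : ℝ)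
    (hε : 0 < ε) :
    ∃ C : ℝ, 0 < C ∧ ∀ A B Z : ℕ, 1 ≤ A → 1 ≤ B → 1 ≤ Z →
      ((cs a A B Z).card : ℝ) ≤ C * (A * B * (Z : ℝ) ^ n) * (Z : ℝ) ^ ε := by
  obtain ⟨C₁, hC₁, h₁⟩ := core1 ha
  obtain ⟨C₂, hC₂, h₂⟩ := core2 hn ha ε hε
  refine ⟨C₁ + C₂, by positivity, ?_⟩
  intro A B Z hA hB hZ
  have hZ1 : (1 : ℝ) ≤ Z := by exact_mod_cast hZ
  have hZε : (1 : ℝ) ≤ (Z : ℝ) ^ ε := Real.one_le_rpow hZ1 hε.le
  have hG : 0 ≤ (A * B * (Z : ℝ) ^ n) := by positivity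
  rcases le_total (A * B) Z with h | h
  · refine (h₁ A B Z hA hB hZ h).trans ?_
    calc C₁ * (A * B * (Z : ℝ) ^ n) = C₁ * (A * B * (Z : ℝ) ^ n) * 1 := (mul_one _).symm
      _ ≤ (C₁ + C₂) * (A * B * (Z : ℝ) ^ n) * (Z : ℝ) ^ ε := by
          gcongr
          linarith
  · refine (h₂ A B Z hA hB hZ h).trans ?_
    gcongr
    linarith

end Pool.Agent.H548.WM
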