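import Mathlib
import Pool.Agent.H548.WM.Core

/-! All line bundles. -/

namespace Pool.Agent.H548.WM

open Finset
open Pool.Agent.W978.QM (Prim)

/-- The dyadic exponent of a vector. -/
def dy {m : ℕ} (v : Fin m → ℤ) : ℕ := Nat.clog 2 (ht v)

theorem dy_spec {m : ℕ} {v : Fin m → ℤ} (hv : 1 ≤ ht v) :
    ht v ≤ 2 ^ dy v ∧ 2 ^ dy v ≤ 2 * ht v := by
  unfold dy
  constructor
  · exact Nat.le_pow_clog (b := 2) (by norm_num) (ht v)
  · by_cases h2 : ht v = 1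
    · rw [h2, Nat.clog_one_right]
      omega
    · have h3 : 1 < ht v := by omega
      have h4 := Nat.pow_pred_clog_lt_self (b := 2) (by norm_num) h3
      have h5 : 0 < Nat.clog 2 (ht v) := Nat.clog_pos (by norm_num) h3
      have h6 : 2 ^ Nat.clog 2 (ht v) = 2 * 2 ^ (Nat.clog 2 (ht v)).pred := by
        rw [← pow_succ']
        exact congrArg (fun n => 2 ^ n) (Nat.succ_pred_eq_of_pos h5).symm
      omega

theorem ht_pos {m : ℕ} {v : Fin m → ℤ} (hv : v ≠ 0) : 1 ≤ ht v := by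
  by_contra hc
  apply hv
  funext i
  have := le_ht v i
  have h0 : (v i).natAbs = 0 := by omega
  simpa using h0

theorem prim_ne_zero {v : Fin 2 → ℤ} (h : Prim v) : v ≠ 0 := by
  rintro rfl
  exact not_isCoprime_zero_zero h

theorem r_ne_zero {m : ℕ} {a : Fin 2 → Fin 2 → Fin m → ℤ} {r : Fin m → ℤ} (h : dt a r ≠ 0) :
    r ≠ 0 := by
  rintro rfl
  apply h
  unfold dt mt
  simp

open Classical in
/-- The anticanonical count. -/
theorem anti {n : ℕ} (hn : 1 ≤ n) {a : Fin 2 → Fin 2 → Fin (n + 1) → ℤ} (ha : Nz a) (ε : ℝ)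
    (hε : 0 < ε) :
    ∃ C : ℝ, 0 < C ∧ ∀ B : ℕ, 1 ≤ B →
      ∃ S : Finset ((Fin 2 → ℤ) × (Fin 2 → ℤ) × (Fin (n + 1) → ℤ)),
      (∀ p q r, Prim p → Prim q → fv a p q r = 0 → dt a r ≠ 0 →
        ht p * ht q * ht r ^ n ≤ B → (p, q, r) ∈ S) ∧
      (S.card : ℝ) ≤ C * (B : ℝ) ^ (1 + ε) := by
  obtain ⟨C, hC, hcore⟩ := core hn ha (ε / 2) (by positivity)
  obtain ⟨C₂, hC₂, hlog⟩ := Pool.Agent.W978.QM.log_bound (ε / 6) (by positivity)
  refine ⟨C * C₂ ^ 3 * ((2 ^ (n + 2) : ℕ) : ℝ) ^ (1 + ε), by positivity, ?_⟩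
  intro B hB1
  have hB1' : (1 : ℝ) ≤ B := by exact_mod_cast hB1
  set B' := 2 ^ (n + 2) * B with hB'
  have hB'1 : 1 ≤ B' := Nat.mul_pos (by positivity) hB1
  set L := Nat.log 2 B' + 1 with hLdef
  set I : Finset (Fin 3 → ℕ) := (Fintype.piFinset fun _ : Fin 3 => range L).filter
    (fun k => 2 ^ k 0 * 2 ^ k 1 * (2 ^ k 2) ^ n ≤ B') with hI
  have hidx : ∀ (p q : Fin 2 → ℤ) (r : Fin (n + 1) → ℤ), 1 ≤ ht p → 1 ≤ ht q → 1 ≤ ht r →
      ht p * ht q * ht r ^ n ≤ B → (![dy p, dy q, dy r] : Fin 3 → ℕ) ∈ I := by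
    intro p q r hp hq hr hH
    have hle : 2 ^ dy p * 2 ^ dy q * (2 ^ dy r) ^ n ≤ B' := by
      have h0 := (dy_spec hp).2
      have h1 := (dy_spec hq).2
      have h2 := (dy_spec hr).2
      calc 2 ^ dy p * 2 ^ dy q * (2 ^ dy r) ^ n
          ≤ (2 * ht p) * (2 * ht q) * (2 * ht r) ^ n := by gcongr
        _ = 2 ^ (n + 2) * (ht p * ht q * ht r ^ n) := by rw [mul_pow]; ring
        _ ≤ 2 ^ (n + 2) * B := by gcongr
    rw [hI, mem_filter, Fintype.mem_piFinset]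
    refine ⟨?_, hle⟩
    have a0 : 1 ≤ 2 ^ dy p := Nat.one_le_two_pow
    have a1 : 1 ≤ 2 ^ dy q := Nat.one_le_two_pow
    have a2 : 1 ≤ 2 ^ dy r := Nat.one_le_two_pow
    have a3 : 1 ≤ (2 ^ dy r) ^ n := Nat.one_le_pow _ _ a2
    have e0 : 2 ^ dy p ≤ B' := by
      refine le_trans ?_ hle
      calc 2 ^ dy p = 2 ^ dy p * 1 * 1 := by ring
        _ ≤ _ := by gcongr
    have e1 : 2 ^ dy q ≤ B' := by
      refine le_trans ?_ hle
      calc 2 ^ dy q = 1 * 2 ^ dy q * 1 := by ring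
        _ ≤ _ := by gcongr
    have e2 : 2 ^ dy r ≤ B' := by
      refine le_trans ?_ hle
      calc 2 ^ dy r = 1 * 1 * 2 ^ dy r := by ring
        _ ≤ 2 ^ dy p * 2 ^ dy q * (2 ^ dy r) ^ n :=
            Nat.mul_le_mul (Nat.mul_le_mul a0 a1) (Nat.le_self_pow (by omega) _)
    intro m
    rw [mem_range, hLdef]
    fin_cases m
    · have := Nat.le_log_of_pow_le (b := 2) (by norm_num) e0
      exact Nat.lt_succ_of_le this
    · have := Nat.le_log_of_pow_le (b := 2) (by norm_num) e1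
      exact Nat.lt_succ_of_le this
    · have := Nat.le_log_of_pow_le (b := 2) (by norm_num) e2
      exact Nat.lt_succ_of_le this
  refine ⟨I.biUnion fun k => cs a (2 ^ k 0) (2 ^ k 1) (2 ^ k 2), ?_, ?_⟩
  · intro p q r hp hq hf hU hH
    have hp1 := ht_pos (prim_ne_zero hp)
    have hq1 := ht_pos (prim_ne_zero hq)
    have hr1 := ht_pos (r_ne_zero hU)
    rw [mem_biUnion]
    refine ⟨![dy p, dy q, dy r], hidx p q r hp1 hq1 hr1 hH, ?_⟩
    unfold cs
    rw [mem_filter, mem_product, mem_product]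
    exact ⟨⟨mem_bx.2 (dy_spec hp1).1, mem_bx.2 (dy_spec hq1).1, mem_bx.2 (dy_spec hr1).1⟩,
      hp, hq, (dy_spec hp1).2, (dy_spec hq1).2, hU, hf⟩
  · have hL4 : ((L : ℕ) : ℝ) ≤ C₂ * (B' : ℝ) ^ (ε / 6) := by
      have := hlog B' hB'1
      rw [hLdef]
      push_cast at this ⊢
      exact this
    have hcardI : (I.card : ℝ) ≤ (C₂ * (B' : ℝ) ^ (ε / 6)) ^ 3 := by
      have h1 : I.card ≤ L ^ 3 := by
        refine (Finset.card_le_card (Finset.filter_subset _ _)).trans (le_of_eq ?_)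
        rw [Fintype.card_piFinset]
        simp
      calc (I.card : ℝ) ≤ ((L ^ 3 : ℕ) : ℝ) := by exact_mod_cast h1
        _ = (L : ℝ) ^ 3 := by push_cast; ring
        _ ≤ _ := pow_le_pow_left₀ (by positivity) hL4 3
    have hX0 : (0 : ℝ) < (B' : ℝ) := by exact_mod_cast hB'1
    have hgen : ∀ k ∈ I, ((cs a (2 ^ k 0) (2 ^ k 1) (2 ^ k 2)).card : ℝ) ≤
        C * (B' : ℝ) ^ (1 + ε / 2) := by
      intro k hk
      rw [hI, mem_filter] at hk
      obtain ⟨-, hk2⟩ := hk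
      have h1 := hcore (2 ^ k 0) (2 ^ k 1) (2 ^ k 2) Nat.one_le_two_pow Nat.one_le_two_pow
        Nat.one_le_two_pow
      have a0 : 1 ≤ 2 ^ k 0 := Nat.one_le_two_pow
      have a1 : 1 ≤ 2 ^ k 1 := Nat.one_le_two_pow
      have e1 : 2 ^ k 2 ≤ B' := by
        refine le_trans ?_ hk2
        calc 2 ^ k 2 = 1 * 1 * 2 ^ k 2 := by ring
          _ ≤ 2 ^ k 0 * 2 ^ k 1 * (2 ^ k 2) ^ n :=
            Nat.mul_le_mul (Nat.mul_le_mul a0 a1) (Nat.le_self_pow (by omega) _)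
      have e1' : ((2 ^ k 2 : ℕ) : ℝ) ≤ B' := by exact_mod_cast e1
      have e2 : (((2 ^ k 0 : ℕ) : ℝ) * ((2 ^ k 1 : ℕ) : ℝ) * ((2 ^ k 2 : ℕ) : ℝ) ^ n) ≤
          (B' : ℝ) := by exact_mod_cast hk2
      calc ((cs a (2 ^ k 0) (2 ^ k 1) (2 ^ k 2)).card : ℝ)
          ≤ C * (((2 ^ k 0 : ℕ) : ℝ) * ((2 ^ k 1 : ℕ) : ℝ) * ((2 ^ k 2 : ℕ) : ℝ) ^ n) *
            ((2 ^ k 2 : ℕ) : ℝ) ^ (ε / 2) := h1
        _ ≤ C * (B' : ℝ) * (B' : ℝ) ^ (ε / 2) := by
            gcongr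
        _ = C * (B' : ℝ) ^ (1 + ε / 2) := by
            rw [Real.rpow_add hX0, Real.rpow_one]
            ring
    calc (((I.biUnion fun k => cs a (2 ^ k 0) (2 ^ k 1) (2 ^ k 2)).card : ℕ) : ℝ)
        ≤ ∑ k ∈ I, ((cs a (2 ^ k 0) (2 ^ k 1) (2 ^ k 2)).card : ℝ) := by
          exact_mod_cast Finset.card_biUnion_le
      _ ≤ ∑ k ∈ I, C * (B' : ℝ) ^ (1 + ε / 2) := Finset.sum_le_sum hgen
      _ = (I.card : ℝ) * (C * (B' : ℝ) ^ (1 + ε / 2)) := by
          simp only [Finset.sum_const, nsmul_eq_mul]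
      _ ≤ (C₂ * (B' : ℝ) ^ (ε / 6)) ^ 3 * (C * (B' : ℝ) ^ (1 + ε / 2)) := by
          gcongr
      _ = C * C₂ ^ 3 * ((B' : ℝ) ^ (ε / 6 * 3) * (B' : ℝ) ^ (1 + ε / 2)) := by
          rw [mul_pow, ← Real.rpow_natCast ((B' : ℝ) ^ (ε / 6)) 3, ← Real.rpow_mul hX0.le]
          push_cast
          ring
      _ = C * C₂ ^ 3 * (B' : ℝ) ^ (1 + ε) := by
          rw [← Real.rpow_add hX0]
          congr 2
          ring
      _ = C * C₂ ^ 3 * ((2 ^ (n + 2) : ℕ) : ℝ) ^ (1 + ε) * (B : ℝ) ^ (1 + ε) := by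
          rw [hB', Nat.cast_mul, Real.mul_rpow (by positivity) (by linarith)]
          ring

/-- The heights of two of the three points bound the height of the third one. -/
theorem ht_bound {q v : Fin 2 → ℤ} (hq : Prim q) (h : v 0 * q 0 + v 1 * q 1 = 0) (hv : v ≠ 0) :
    ht q ≤ ht v := by
  obtain ⟨α, β, hab⟩ := hq
  set t := α * v 1 - β * v 0 with ht'
  have h1 : v 1 = t * q 0 := by
    rw [ht']; linear_combination (-(v 1)) * hab + β * h
  have h0 : v 0 = -(t * q 1) := by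
    rw [ht']; linear_combination (-(v 0)) * hab + α * h
  have ht0 : t ≠ 0 := by
    intro h2
    rw [h2] at h0 h1
    apply hv
    funext i
    fin_cases i
    · simpa using h0
    · simpa using h1
  have ht1 : 1 ≤ |t| := Int.one_le_abs ht0
  apply ht_le
  intro i
  fin_cases i
  · calc |q 0| = 1 * |q 0| := (one_mul _).symm
      _ ≤ |t| * |q 0| := by gcongr
      _ = |v 1| := by rw [h1, abs_mul]
      _ ≤ ht v := le_ht' v 1
  · calc |q 1| = 1 * |q 1| := (one_mul _).symm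
      _ ≤ |t| * |q 1| := by gcongr
      _ = |v 0| := by rw [h0, abs_neg, abs_mul]
      _ ≤ ht v := le_ht' v 0

theorem ht_q {m : ℕ} {a : Fin 2 → Fin 2 → Fin m → ℤ} {p q : Fin 2 → ℤ} {r : Fin m → ℤ}
    (hp : Prim p) (hq : Prim q) (hf : fv a p q r = 0) (hU : dt a r ≠ 0) :
    ht q ≤ 2 * mxa a * (ht p * ht r) := by
  set v : Fin 2 → ℤ := fun j => mt a r 0 j * p 0 + mt a r 1 j * p 1 with hv
  have hv0 : v ≠ 0 := by
    intro h
    have h0 : mt a r 0 0 * p 0 + mt a r 1 0 * p 1 = 0 := congrFun h 0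
    have h1 : mt a r 0 1 * p 0 + mt a r 1 1 * p 1 = 0 := congrFun h 1
    apply prim_ne_zero hp
    have e0 : dt a r * p 0 = 0 := by
      unfold dt
      linear_combination mt a r 1 1 * h0 - mt a r 1 0 * h1
    have e1 : dt a r * p 1 = 0 := by
      unfold dt
      linear_combination mt a r 0 0 * h1 - mt a r 0 1 * h0
    funext i
    fin_cases i
    · simpa [hU] using e0
    · simpa [hU] using e1
  have hvq : v 0 * q 0 + v 1 * q 1 = 0 := by
    rw [fv_mt] at hf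
    simp only [Fin.sum_univ_two] at hf
    simp only [hv]
    linear_combination hf
  refine (ht_bound hq hvq hv0).trans ?_
  apply ht_le
  intro j
  simp only [hv]
  have e0 := mt_le a r 0 j
  have e1 := mt_le a r 1 j
  have f0 := le_ht' p 0
  have f1 := le_ht' p 1
  push_cast
  calc |mt a r 0 j * p 0 + mt a r 1 j * p 1| ≤ |mt a r 0 j * p 0| + |mt a r 1 j * p 1| :=
        abs_add_le _ _
    _ = |mt a r 0 j| * |p 0| + |mt a r 1 j| * |p 1| := by rw [abs_mul, abs_mul]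
    _ ≤ (mxa a * ht r) * ht p + (mxa a * ht r) * ht p := by gcongr
    _ = 2 * mxa a * (ht p * ht r) := by ring

theorem ht_p {m : ℕ} {a : Fin 2 → Fin 2 → Fin m → ℤ} {p q : Fin 2 → ℤ} {r : Fin m → ℤ}
    (hp : Prim p) (hq : Prim q) (hf : fv a p q r = 0) (hU : dt a r ≠ 0) :
    ht p ≤ 2 * mxa a * (ht q * ht r) := by
  set v : Fin 2 → ℤ := fun i => mt a r i 0 * q 0 + mt a r i 1 * q 1 with hv
  have hv0 : v ≠ 0 := by
    intro h
    have h0 : mt a r 0 0 * q 0 + mt a r 0 1 * q 1 = 0 := congrFun h 0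
    have h1 : mt a r 1 0 * q 0 + mt a r 1 1 * q 1 = 0 := congrFun h 1
    apply prim_ne_zero hq
    have e0 : dt a r * q 0 = 0 := by
      unfold dt
      linear_combination mt a r 1 1 * h0 - mt a r 0 1 * h1
    have e1 : dt a r * q 1 = 0 := by
      unfold dt
      linear_combination mt a r 0 0 * h1 - mt a r 1 0 * h0
    funext i
    fin_cases i
    · simpa [hU] using e0
    · simpa [hU] using e1
  have hvp : v 0 * p 0 + v 1 * p 1 = 0 := by
    rw [fv_mt] at hf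
    simp only [Fin.sum_univ_two] at hf
    simp only [hv]
    linear_combination hf
  refine (ht_bound hp hvp hv0).trans ?_
  apply ht_le
  intro i
  simp only [hv]
  have e0 := mt_le a r i 0
  have e1 := mt_le a r i 1
  have f0 := le_ht' q 0
  have f1 := le_ht' q 1
  push_cast
  calc |mt a r i 0 * q 0 + mt a r i 1 * q 1| ≤ |mt a r i 0 * q 0| + |mt a r i 1 * q 1| :=
        abs_add_le _ _
    _ = |mt a r i 0| * |q 0| + |mt a r i 1| * |q 1| := by rw [abs_mul, abs_mul]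
    _ ≤ (mxa a * ht r) * ht q + (mxa a * ht r) * ht q := by gcongr
    _ = 2 * mxa a * (ht q * ht r) := by ring

/-- One half of the comparison. -/
theorem half (M x y z a0 a1 a2 : ℝ) (hM : 1 ≤ M) (hx : 1 ≤ x) (hz : 1 ≤ z)
    (hxy : x ≤ y) (hyx : y ≤ M * (x * z)) (h01 : a0 + a1 ≤ 0) (h2 : a2 ≤ 0) (h12 : a1 + a2 ≤ 0)
    (h1 : a1 ≤ 1) : x ^ a0 * y ^ a1 * z ^ a2 ≤ M := by
  have x0 : 0 < x := by linarith
  have z0 : 0 < z := by linarith
  have y0 : 0 < y := by linarith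
  have M0 : 0 < M := by linarith
  rcases le_total a1 0 with h | h
  · have e1 : y ^ a1 ≤ x ^ a1 := Real.rpow_le_rpow_of_nonpos x0 hxy h
    calc x ^ a0 * y ^ a1 * z ^ a2 ≤ x ^ a0 * x ^ a1 * z ^ a2 := by gcongr
      _ = x ^ (a0 + a1) * z ^ a2 := by rw [Real.rpow_add x0]
      _ ≤ 1 * 1 := by
          gcongr
          · exact Real.rpow_le_one_of_one_le_of_nonpos hx h01
          · exact Real.rpow_le_one_of_one_le_of_nonpos hz h2
      _ ≤ M := by linarith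
  · have e1 : y ^ a1 ≤ (M * (x * z)) ^ a1 := Real.rpow_le_rpow y0.le hyx h
    calc x ^ a0 * y ^ a1 * z ^ a2 ≤ x ^ a0 * (M * (x * z)) ^ a1 * z ^ a2 := by gcongr
      _ = M ^ a1 * (x ^ (a0 + a1) * z ^ (a1 + a2)) := by
          rw [Real.mul_rpow M0.le (by positivity), Real.mul_rpow x0.le z0.le,
            Real.rpow_add x0, Real.rpow_add z0]
          ring
      _ ≤ M ^ (1 : ℝ) * (1 * 1) := by
          gcongr
          · exact Real.rpow_le_one_of_one_le_of_nonpos hx h01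
          · exact Real.rpow_le_one_of_one_le_of_nonpos hz h12
      _ = M := by rw [Real.rpow_one]; ring

/-- Comparison of the anticanonical height with the height of `L`. -/
theorem compare (n : ℕ) (M x y z l0 l1 l2 t T : ℝ) (hM : 1 ≤ M) (hx : 1 ≤ x) (hy : 1 ≤ y)
    (hz : 1 ≤ z) (hxy : x ≤ M * (y * z)) (hyx : y ≤ M * (x * z)) (hl0 : 0 ≤ l0) (hl1 : 0 ≤ l1)
    (ht : 0 ≤ t) (h2 : 0 ≤ t * l2 - n) (h01 : 0 ≤ (t * l0 - 1) + (t * l1 - 1))
    (h02 : 0 ≤ (t * l0 - 1) + (t * l2 - n)) (h12 : 0 ≤ (t * l1 - 1) + (t * l2 - n))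
    (hT : x ^ l0 * y ^ l1 * z ^ l2 ≤ T) : x * y * z ^ n ≤ M * T ^ t := by
  have x0 : 0 < x := by linarith
  have y0 : 0 < y := by linarith
  have z0 : 0 < z := by linarith
  have hH : (x ^ l0 * y ^ l1 * z ^ l2) ^ t ≤ T ^ t :=
    Real.rpow_le_rpow (by positivity) hT ht
  have hHe : (x ^ l0 * y ^ l1 * z ^ l2) ^ t = x ^ (t * l0) * y ^ (t * l1) * z ^ (t * l2) := by
    rw [Real.mul_rpow (by positivity) (by positivity), Real.mul_rpow (by positivity)
      (by positivity), ← Real.rpow_mul x0.le, ← Real.rpow_mul y0.le, ← Real.rpow_mul z0.le]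
    simp only [mul_comm]
  have htl0 : 0 ≤ t * l0 := mul_nonneg ht hl0
  have htl1 : 0 ≤ t * l1 := mul_nonneg ht hl1
  have hkey : x ^ (1 - t * l0) * y ^ (1 - t * l1) * z ^ (n - t * l2) ≤ M := by
    rcases le_total x y with h | h
    · exact half M x y z _ _ _ hM hx hz h hyx (by linarith) (by linarith) (by linarith)
        (by linarith)
    · have := half M y x z (1 - t * l1) (1 - t * l0) (n - t * l2) hM hy hz h hxy (by linarith)
        (by linarith) (by linarith) (by linarith)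
      calc x ^ (1 - t * l0) * y ^ (1 - t * l1) * z ^ (n - t * l2)
          = y ^ (1 - t * l1) * x ^ (1 - t * l0) * z ^ (n - t * l2) := by ring
        _ ≤ M := this
  calc x * y * z ^ n = (x ^ (1 - t * l0) * y ^ (1 - t * l1) * z ^ (n - t * l2)) *
        (x ^ (t * l0) * y ^ (t * l1) * z ^ (t * l2)) := by
        have ex : x = x ^ (1 - t * l0) * x ^ (t * l0) := by
          rw [← Real.rpow_add x0]
          have : 1 - t * l0 + t * l0 = 1 := by ring
          rw [this, Real.rpow_one]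
        have ey : y = y ^ (1 - t * l1) * y ^ (t * l1) := by
          rw [← Real.rpow_add y0]
          have : 1 - t * l1 + t * l1 = 1 := by ring
          rw [this, Real.rpow_one]
        have ez : z ^ n = z ^ (n - t * l2) * z ^ (t * l2) := by
          rw [← Real.rpow_add z0]
          have : (n : ℝ) - t * l2 + t * l2 = n := by ring
          rw [this, Real.rpow_natCast]
        rw [ez]
        calc x * y * (z ^ (n - t * l2) * z ^ (t * l2))
            = (x ^ (1 - t * l0) * x ^ (t * l0)) * (y ^ (1 - t * l1) * y ^ (t * l1)) *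
              (z ^ (n - t * l2) * z ^ (t * l2)) := by rw [← ex, ← ey]
          _ = _ := by ring
    _ ≤ M * T ^ t := by
        rw [← hHe]
        gcongr

/-- The exponent: the infimum of all `t` such that `t L + K` is in the cone generated by the
classes `(1,0,0)`, `(0,1,0)`, `(1,-1,1)`, `(-1,1,1)`, where `L = (l 0, l 1, l 2)` and
`K = (-1,-1,-n)`. -/
noncomputable def fuj (n : ℕ) (l : Fin 3 → ℝ) : ℝ :=
  sInf {t : ℝ | ∃ c : Fin 4 → ℝ, (∀ i, 0 ≤ c i) ∧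
    t * l 0 - 1 = c 0 + c 2 - c 3 ∧ t * l 1 - 1 = c 1 - c 2 + c 3 ∧ t * l 2 - n = c 2 + c 3}

theorem fuj_set (n : ℕ) (l : Fin 3 → ℝ) :
    {t : ℝ | ∃ c : Fin 4 → ℝ, (∀ i, 0 ≤ c i) ∧
      t * l 0 - 1 = c 0 + c 2 - c 3 ∧ t * l 1 - 1 = c 1 - c 2 + c 3 ∧
        t * l 2 - n = c 2 + c 3} =
    {t : ℝ | 0 ≤ t * l 2 - n ∧ 0 ≤ (t * l 0 - 1) + (t * l 1 - 1) ∧
      0 ≤ (t * l 0 - 1) + (t * l 2 - n) ∧ 0 ≤ (t * l 1 - 1) + (t * l 2 - n)} := by
  ext t
  constructor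
  · rintro ⟨c, hc, h0, h1, h2⟩
    have c0 := hc 0
    have c1 := hc 1
    have c2 := hc 2
    have c3 := hc 3
    refine ⟨?_, ?_, ?_, ?_⟩ <;> linarith
  · rintro ⟨h2, h01, h02, h12⟩
    rcases le_total 0 (t * l 0 - 1) with h0 | h0
    · rcases le_total 0 (t * l 1 - 1) with h1 | h1
      · refine ⟨![t * l 0 - 1, t * l 1 - 1, (t * l 2 - n) / 2, (t * l 2 - n) / 2], ?_, ?_, ?_, ?_⟩
        · intro i
          fin_cases i
          · exact h0
          · exact h1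
          · show 0 ≤ (t * l 2 - n) / 2
            linarith
          · show 0 ≤ (t * l 2 - n) / 2
            linarith
        · simp
        · simp
        · simp
      · refine ⟨![(t * l 0 - 1) + (t * l 1 - 1), 0, ((t * l 2 - n) - (t * l 1 - 1)) / 2,
          ((t * l 2 - n) + (t * l 1 - 1)) / 2], ?_, ?_, ?_, ?_⟩
        · intro i
          fin_cases i
          · exact h01
          · exact le_refl _
          · show 0 ≤ ((t * l 2 - n) - (t * l 1 - 1)) / 2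
            linarith
          · show 0 ≤ ((t * l 2 - n) + (t * l 1 - 1)) / 2
            linarith
        · simp only [Matrix.cons_val]
          ring
        · simp only [Matrix.cons_val]
          ring
        · simp only [Matrix.cons_val]
          ring
    · refine ⟨![0, (t * l 0 - 1) + (t * l 1 - 1), ((t * l 2 - n) + (t * l 0 - 1)) / 2,
          ((t * l 2 - n) - (t * l 0 - 1)) / 2], ?_, ?_, ?_, ?_⟩
      · intro i
        fin_cases i
        · exact le_refl _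
        · exact h01
        · show 0 ≤ ((t * l 2 - n) + (t * l 0 - 1)) / 2
          linarith
        · show 0 ≤ ((t * l 2 - n) - (t * l 0 - 1)) / 2
          linarith
      · simp only [Matrix.cons_val]
        ring
      · simp only [Matrix.cons_val]
        ring
      · simp only [Matrix.cons_val]
        ring

theorem rep_prim {v : Fin 2 → ℤ} (h : Rep v) : Prim v := by
  have h1 := h.1
  have h2 : ((Int.gcd (v 0) (v 1) : ℕ) : ℤ) ∣ Finset.univ.gcd v := by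
    apply Finset.dvd_gcd
    intro i _
    fin_cases i
    · exact Int.gcd_dvd_left ..
    · exact Int.gcd_dvd_right ..
  rw [h1] at h2
  have h3 : Int.gcd (v 0) (v 1) ∣ 1 := by exact_mod_cast h2
  exact Int.isCoprime_iff_gcd_eq_one.2 (Nat.dvd_one.1 h3)

open Classical in
/-- The weak form of the conjecture. -/
theorem main (n : ℕ) (hn : 2 ≤ n) (a : Fin 2 → Fin 2 → Fin (n + 1) → ℤ) (ha : Smooth a) :
    (∃ (p q : Fin 2 → ℂ) (r : Fin (n + 1) → ℂ), p ≠ 0 ∧ q ≠ 0 ∧ r ≠ 0 ∧ fv a p q r = 0 ∧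
      dt a r ≠ 0) ∧
    ∀ l : Fin 3 → ℝ, 0 ≤ l 0 → 0 ≤ l 1 → 0 < l 0 + l 1 → 0 < l 2 →
      ∀ ε : ℝ, 0 < ε → ∃ C : ℝ, ∀ T : ℝ, 1 ≤ T →
        {x : (Fin 2 → ℤ) × (Fin 2 → ℤ) × (Fin (n + 1) → ℤ) | Rep x.1 ∧ Rep x.2.1 ∧ Rep x.2.2 ∧
          fv a x.1 x.2.1 x.2.2 = 0 ∧ dt a x.2.2 ≠ 0 ∧
          (ht x.1 : ℝ) ^ l 0 * (ht x.2.1 : ℝ) ^ l 1 * (ht x.2.2 : ℝ) ^ l 2 ≤ T}.Finite ∧
        ({x : (Fin 2 → ℤ) × (Fin 2 → ℤ) × (Fin (n + 1) → ℤ) | Rep x.1 ∧ Rep x.2.1 ∧ Rep x.2.2 ∧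
          fv a x.1 x.2.1 x.2.2 = 0 ∧ dt a x.2.2 ≠ 0 ∧
          (ht x.1 : ℝ) ^ l 0 * (ht x.2.1 : ℝ) ^ l 1 * (ht x.2.2 : ℝ) ^ l 2 ≤ T}.ncard : ℝ) ≤
          C * T ^ (fuj n l + ε) := by
  have hnz := nz_of_smooth (by omega) ha
  refine ⟨exists_point hnz, ?_⟩
  intro l hl0 hl1 hl01 hl2 ε hε
  set F : Set ℝ := {t : ℝ | 0 ≤ t * l 2 - n ∧ 0 ≤ (t * l 0 - 1) + (t * l 1 - 1) ∧
      0 ≤ (t * l 0 - 1) + (t * l 2 - n) ∧ 0 ≤ (t * l 1 - 1) + (t * l 2 - n)} with hF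
  have hfuj : fuj n l = sInf F := by
    unfold fuj
    rw [fuj_set]
  have hne : F.Nonempty := by
    have hn0 : (0 : ℝ) ≤ n := by positivity
    have e1 : 0 < 2 / (l 0 + l 1) := by positivity
    have e2 : 0 < (n + 1) / l 2 := by positivity
    have e3 : 2 / (l 0 + l 1) * (l 0 + l 1) = 2 := div_mul_cancel₀ _ hl01.ne'
    have e4 : (n + 1) / l 2 * l 2 = n + 1 := div_mul_cancel₀ _ hl2.ne'
    have e5 : 0 ≤ (2 / (l 0 + l 1) + (n + 1) / l 2) * l 0 := by positivity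
    have e5' : 0 ≤ (2 / (l 0 + l 1) + (n + 1) / l 2) * l 1 := by positivity
    have e6 : n + 1 ≤ (2 / (l 0 + l 1) + (n + 1) / l 2) * l 2 := by
      have : 0 ≤ 2 / (l 0 + l 1) * l 2 := by positivity
      rw [add_mul, e4]; linarith
    have e7 : 2 ≤ (2 / (l 0 + l 1) + (n + 1) / l 2) * l 0 +
        (2 / (l 0 + l 1) + (n + 1) / l 2) * l 1 := by
      have : 0 ≤ (n + 1) / l 2 * (l 0 + l 1) := by positivity
      rw [← mul_add, add_mul, e3]; linarith
    exact ⟨2 / (l 0 + l 1) + (n + 1) / l 2, by linarith, by linarith, by linarith, by linarith⟩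
  have hpos : ∀ t ∈ F, 0 ≤ t := by
    intro t ht
    by_contra hc
    push Not at hc
    have h1 := ht.1
    have h2 : t * l 2 < 0 := mul_neg_of_neg_of_pos hc hl2
    have hn0 : (0 : ℝ) ≤ n := by positivity
    linarith
  obtain ⟨t, htF, htlt⟩ := exists_lt_of_csInf_lt hne (show sInf F < sInf F + ε / 2 by linarith)
  have ht0 := hpos t htF
  set ε' := ε / (2 * (t + 1)) with hε'
  have hε'0 : 0 < ε' := by positivity
  obtain ⟨C, hC, hanti⟩ := anti (show 1 ≤ n by omega) hnz ε' hε'0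
  set M : ℝ := 2 * (mxa a : ℝ) with hM
  have hM1 : 1 ≤ M := by
    have : (1 : ℝ) ≤ mxa a := by exact_mod_cast one_le_mxa a
    rw [hM]; linarith
  refine ⟨C * M ^ (1 + ε'), ?_⟩
  intro T hT
  have hT0 : 0 < T := by linarith
  have hTt1 : (1 : ℝ) ≤ T ^ t := Real.one_le_rpow hT ht0
  have hMT1 : (1 : ℝ) ≤ M * T ^ t := one_le_mul_of_one_le_of_one_le hM1 hTt1
  have hB1 : 1 ≤ ⌊M * T ^ t⌋₊ := by
    rw [Nat.one_le_floor_iff]
    exact hMT1
  obtain ⟨S, hS, hcard⟩ := hanti ⌊M * T ^ t⌋₊ hB1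
  have hsub : {x : (Fin 2 → ℤ) × (Fin 2 → ℤ) × (Fin (n + 1) → ℤ) | Rep x.1 ∧ Rep x.2.1 ∧
      Rep x.2.2 ∧ fv a x.1 x.2.1 x.2.2 = 0 ∧ dt a x.2.2 ≠ 0 ∧
      (ht x.1 : ℝ) ^ l 0 * (ht x.2.1 : ℝ) ^ l 1 * (ht x.2.2 : ℝ) ^ l 2 ≤ T} ⊆ ↑S := by
    rintro ⟨p, q, r⟩ ⟨hp, hq, hr, hf, hU, hH⟩
    simp only at hp hq hr hf hU hH
    have hp' := rep_prim hp
    have hq' := rep_prim hq
    apply hS p q r hp' hq' hf hU
    have n0 := ht_pos (prim_ne_zero hp')
    have n1 := ht_pos (prim_ne_zero hq')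
    have n2 := ht_pos (r_ne_zero hU)
    have n0' : (1 : ℝ) ≤ (ht p : ℝ) := by exact_mod_cast n0
    have n1' : (1 : ℝ) ≤ (ht q : ℝ) := by exact_mod_cast n1
    have n2' : (1 : ℝ) ≤ (ht r : ℝ) := by exact_mod_cast n2
    have hh1 : (ht p : ℝ) ≤ M * ((ht q : ℝ) * (ht r : ℝ)) := by
      rw [hM]
      exact_mod_cast ht_p hp' hq' hf hU
    have hh2 : (ht q : ℝ) ≤ M * ((ht p : ℝ) * (ht r : ℝ)) := by
      rw [hM]
      exact_mod_cast ht_q hp' hq' hf hU
    have h1 := compare n M (ht p) (ht q) (ht r) (l 0) (l 1) (l 2) t T hM1 n0' n1' n2' hh1 hh2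
      hl0 hl1 ht0 htF.1 htF.2.1 htF.2.2.1 htF.2.2.2 hH
    apply Nat.le_floor
    push_cast
    exact h1
  have hfinS : (↑S : Set ((Fin 2 → ℤ) × (Fin 2 → ℤ) × (Fin (n + 1) → ℤ))).Finite :=
    S.finite_toSet
  refine ⟨hfinS.subset hsub, ?_⟩
  have h5 := Set.ncard_le_ncard hsub hfinS
  rw [Set.ncard_coe_finset] at h5
  have h6 : ((⌊M * T ^ t⌋₊ : ℕ) : ℝ) ≤ M * T ^ t := Nat.floor_le (by positivity)
  refine le_trans (show _ ≤ (S.card : ℝ) by exact_mod_cast h5) ?_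
  calc (S.card : ℝ) ≤ C * ((⌊M * T ^ t⌋₊ : ℕ) : ℝ) ^ (1 + ε') := hcard
    _ ≤ C * (M * T ^ t) ^ (1 + ε') := by
        apply mul_le_mul_of_nonneg_left _ hC.le
        exact Real.rpow_le_rpow (by positivity) h6 (by positivity)
    _ = C * M ^ (1 + ε') * T ^ (t * (1 + ε')) := by
        rw [Real.mul_rpow (by linarith) (by positivity), ← Real.rpow_mul hT0.le]
        ring
    _ ≤ C * M ^ (1 + ε') * T ^ (fuj n l + ε) := by
        apply mul_le_mul_of_nonneg_left _ (by positivity)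
        apply Real.rpow_le_rpow_of_exponent_le hT
        rw [hfuj]
        have h7 : t * ε' ≤ ε / 2 := by
          rw [hε', mul_div_assoc', div_le_div_iff₀ (by positivity) (by norm_num)]
          nlinarith
        have h8 : t * (1 + ε') = t + t * ε' := by ring
        rw [h8]
        linarith

end Pool.Agent.H548.WM
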